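import Mathlib

/-!
Abstract facts on hypercyclic operators: transitivity, weak mixing from a dense set of bounded
orbits, and a Kitai-type criterion.
-/

namespace Pool.Agent.R884.Lip

open Filter Topology Set

variable {X : Type*} [NormedAddCommGroup X] [NormedSpace ℂ X]

/-- return times -/
def Nt (A : X →L[ℂ] X) (U V : Set X) : Set ℕ := {n | ∃ x ∈ U, (A ^ n) x ∈ V}

lemma pow_add_apply' (A : X →L[ℂ] X) (m n : ℕ) (x : X) : (A ^ (m + n)) x = (A ^ m) ((A ^ n) x) := by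
  rw [pow_add, ContinuousLinearMap.mul_apply]

section
variable [Nontrivial X] {A : X →L[ℂ] X} {x0 : X}

lemma dense_tail (h : Dense (range fun n : ℕ => (A ^ n) x0)) (m : ℕ) :
    Dense ((fun n : ℕ => (A ^ n) x0) '' {n | m ≤ n}) := by
  haveI : ∀ x : X, NeBot (𝓝[≠] x) := fun x => Module.punctured_nhds_neBot ℂ X x
  have h1 : Dense ((range fun n : ℕ => (A ^ n) x0) \
      ((fun n : ℕ => (A ^ n) x0) '' {n | n < m})) :=
    h.diff_finite ((Set.finite_lt_nat m).image _)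
  refine h1.mono ?_
  rintro _ ⟨⟨n, rfl⟩, hn⟩
  refine ⟨n, ?_, rfl⟩
  by_contra hcon
  exact hn ⟨n, (not_le.1 hcon : n < m), rfl⟩

lemma Nt_large (h : Dense (range fun n : ℕ => (A ^ n) x0)) {U V : Set X} (hU : IsOpen U)
    (hU' : U.Nonempty) (hV : IsOpen V) (hV' : V.Nonempty) (m : ℕ) : ∃ n ∈ Nt A U V, m ≤ n := by
  obtain ⟨_, hx1, ⟨n1, rfl⟩⟩ := h.inter_open_nonempty U hU hU'
  obtain ⟨_, hx2, ⟨n2, hn2, rfl⟩⟩ := (dense_tail h (n1 + m)).inter_open_nonempty V hV hV'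
  simp only [mem_ofPred_eq] at hn2
  refine ⟨n2 - n1, ⟨(A ^ n1) x0, hx1, ?_⟩, by omega⟩
  rw [← pow_add_apply', Nat.sub_add_cancel (by omega)]
  exact hx2

lemma Nt_nonempty (h : Dense (range fun n : ℕ => (A ^ n) x0)) {U V : Set X} (hU : IsOpen U)
    (hU' : U.Nonempty) (hV : IsOpen V) (hV' : V.Nonempty) : (Nt A U V).Nonempty := by
  obtain ⟨n, hn, _⟩ := Nt_large h hU hU' hV hV' 0
  exact ⟨n, hn⟩

lemma denseRange_pow (h : Dense (range fun n : ℕ => (A ^ n) x0)) (m : ℕ) :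
    DenseRange (A ^ m) := by
  refine (dense_tail h m).mono ?_
  rintro _ ⟨n, hn, rfl⟩
  simp only [mem_ofPred_eq] at hn
  refine ⟨(A ^ (n - m)) x0, ?_⟩
  rw [← pow_add_apply', Nat.add_sub_cancel' hn]

lemma preimage_nonempty (h : Dense (range fun n : ℕ => (A ^ n) x0)) (m : ℕ) {V : Set X}
    (hV : IsOpen V) (hV' : V.Nonempty) : ((A ^ m) ⁻¹' V).Nonempty := by
  obtain ⟨_, hx, ⟨y, rfl⟩⟩ := (denseRange_pow h m).inter_open_nonempty V hV hV'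
  exact ⟨y, hx⟩

/-- step (2a) -/
lemma step_a (h : Dense (range fun n : ℕ => (A ^ n) x0)) {B : Set X} (hB : Dense B)
    (hBb : ∀ x ∈ B, ∃ C : ℝ, ∀ n : ℕ, ‖(A ^ n) x‖ ≤ C) {U V : Set X} (hU : IsOpen U)
    (hU' : U.Nonempty) (hV : IsOpen V) (hV' : V.Nonempty) :
    (Nt A U U ∩ Nt A U V).Nonempty := by
  obtain ⟨x1, hx1U, hx1B⟩ := hB.inter_open_nonempty U hU hU'
  obtain ⟨C, hC⟩ := hBb x1 hx1B
  obtain ⟨v, hv⟩ := hV'
  obtain ⟨r1, hr1, hr1U⟩ := Metric.isOpen_iff.1 hU x1 hx1U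
  obtain ⟨r2, hr2, hr2V⟩ := Metric.isOpen_iff.1 hV v hv
  have hC0 : 0 ≤ C := (norm_nonneg _).trans (hC 0)
  set r : ℝ := min r1 r2 / 2 with hr
  have hrpos : 0 < r := by positivity
  have hr1' : 2 * r ≤ r1 := by rw [hr]; linarith [min_le_left r1 r2]
  have hr2' : 2 * r ≤ r2 := by rw [hr]; linarith [min_le_right r1 r2]
  set e : ℝ := r / (2 * (C + 1)) with he
  have hepos : 0 < e := by positivity
  have heC : e * C < r := by
    rw [he, div_mul_eq_mul_div, div_lt_iff₀ (by positivity)]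
    nlinarith
  -- `u` near `x1` with `A ^ n u` near `(v - x1) / e`
  obtain ⟨n, ⟨u, huU, huV⟩, _⟩ := Nt_large h (U := Metric.ball x1 r) Metric.isOpen_ball
    ⟨x1, Metric.mem_ball_self hrpos⟩
    (V := Metric.ball ((e⁻¹ : ℂ) • (v - x1)) (r / e)) Metric.isOpen_ball
    ⟨_, Metric.mem_ball_self (by positivity)⟩ 0
  let S : X →L[ℂ] X := 1 + (e : ℂ) • A ^ n
  have hS : ∀ x, S x = x + (e : ℂ) • (A ^ n) x := fun x => rfl
  have hcomm : ∀ (m : ℕ) x, S ((A ^ m) x) = (A ^ m) (S x) := by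
    intro m x
    rw [hS, hS, map_add, map_smul, ← pow_add_apply', ← pow_add_apply', add_comm n m]
  have hSx1 : S x1 ∈ U := by
    apply hr1U
    rw [Metric.mem_ball, dist_eq_norm, hS, add_sub_cancel_left, norm_smul, Complex.norm_real,
      Real.norm_of_nonneg hepos.le]
    have := mul_le_mul_of_nonneg_left (hC n) hepos.le
    linarith
  have hSu : S u ∈ V := by
    apply hr2V
    rw [Metric.mem_ball, dist_eq_norm] at huU huV ⊢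
    have h1 : S u - v = (u - x1) + (e : ℂ) • ((A ^ n) u - (e⁻¹ : ℂ) • (v - x1)) := by
      rw [hS, smul_sub, smul_smul, mul_inv_cancel₀ (by exact_mod_cast hepos.ne'), one_smul]
      abel
    rw [h1]
    refine (norm_add_le _ _).trans_lt ?_
    rw [norm_smul, Complex.norm_real, Real.norm_of_nonneg hepos.le]
    have h2 : e * ‖(A ^ n) u - (e⁻¹ : ℂ) • (v - x1)‖ < r := by
      rwa [lt_div_iff₀' hepos] at huV
    linarith
  have huU' : u ∈ U := hr1U (Metric.ball_subset_ball (by linarith) huU)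
  have hU'' : IsOpen (U ∩ S ⁻¹' U) := hU.inter (hU.preimage S.continuous)
  have hV'' : IsOpen (U ∩ S ⁻¹' V) := hU.inter (hV.preimage S.continuous)
  obtain ⟨m, x, hx, hmx⟩ := Nt_nonempty h hU'' ⟨x1, hx1U, hSx1⟩ hV'' ⟨u, huU', hSu⟩
  refine ⟨m, ⟨x, hx.1, hmx.1⟩, ⟨S x, hx.2, ?_⟩⟩
  rw [← hcomm]
  exact hmx.2

/-- step (2b) -/
lemma step_b (h : Dense (range fun n : ℕ => (A ^ n) x0)) {B : Set X} (hB : Dense B)
    (hBb : ∀ x ∈ B, ∃ C : ℝ, ∀ n : ℕ, ‖(A ^ n) x‖ ≤ C) {U V₁ V₂ : Set X} (hU : IsOpen U)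
    (hU' : U.Nonempty) (hV₁ : IsOpen V₁) (hV₁' : V₁.Nonempty) (hV₂ : IsOpen V₂)
    (hV₂' : V₂.Nonempty) : (Nt A U V₁ ∩ Nt A U V₂).Nonempty := by
  obtain ⟨n, x, hxU, hxV⟩ := Nt_nonempty h hU hU' hV₁ hV₁'
  have h1 : IsOpen (U ∩ (A ^ n) ⁻¹' V₁) := hU.inter (hV₁.preimage (A ^ n).continuous)
  have h2 : IsOpen ((A ^ n) ⁻¹' V₂) := hV₂.preimage (A ^ n).continuous
  obtain ⟨k, ⟨y, hy, hky⟩, ⟨z, hz, hkz⟩⟩ := step_a h hB hBb h1 ⟨x, hxU, hxV⟩ h2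
    (preimage_nonempty h n hV₂ hV₂')
  refine ⟨n + k, ⟨y, hy.1, ?_⟩, ⟨z, hz.1, ?_⟩⟩
  · rw [pow_add_apply']; exact hky.2
  · rw [pow_add_apply']; exact hkz

/-- step (2c): the operator is weakly mixing -/
lemma step_c (h : Dense (range fun n : ℕ => (A ^ n) x0)) {B : Set X} (hB : Dense B)
    (hBb : ∀ x ∈ B, ∃ C : ℝ, ∀ n : ℕ, ‖(A ^ n) x‖ ≤ C) {U₁ U₂ V₁ V₂ : Set X} (hU₁ : IsOpen U₁)
    (hU₁' : U₁.Nonempty) (hU₂ : IsOpen U₂) (hU₂' : U₂.Nonempty)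
    (hV₁ : IsOpen V₁) (hV₁' : V₁.Nonempty) (hV₂ : IsOpen V₂)
    (hV₂' : V₂.Nonempty) : (Nt A U₁ V₁ ∩ Nt A U₂ V₂).Nonempty := by
  obtain ⟨n, x, hxU, hxV⟩ := Nt_nonempty h hU₁ hU₁' hU₂ hU₂'
  have h1 : IsOpen (U₁ ∩ (A ^ n) ⁻¹' U₂) := hU₁.inter (hU₂.preimage (A ^ n).continuous)
  have h2 : IsOpen ((A ^ n) ⁻¹' V₂) := hV₂.preimage (A ^ n).continuous
  obtain ⟨k, ⟨y, hy, hky⟩, ⟨z, hz, hkz⟩⟩ := step_b h hB hBb h1 ⟨x, hxU, hxV⟩ hV₁ hV₁' h2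
    (preimage_nonempty h n hV₂ hV₂')
  refine ⟨k, ⟨y, hy.1, hky⟩, ⟨(A ^ n) z, hz.2, ?_⟩⟩
  rw [← pow_add_apply', add_comm k n, pow_add_apply']
  exact hkz

/-- Furstenberg's intersection lemma for two pairs -/
lemma step_d2 (h : Dense (range fun n : ℕ => (A ^ n) x0)) {B : Set X} (hB : Dense B)
    (hBb : ∀ x ∈ B, ∃ C : ℝ, ∀ n : ℕ, ‖(A ^ n) x‖ ≤ C) {U₁ U₂ V₁ V₂ : Set X} (hU₁ : IsOpen U₁)
    (hU₁' : U₁.Nonempty) (hU₂ : IsOpen U₂) (hU₂' : U₂.Nonempty)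
    (hV₁ : IsOpen V₁) (hV₁' : V₁.Nonempty) (hV₂ : IsOpen V₂)
    (hV₂' : V₂.Nonempty) : ∃ U V : Set X, IsOpen U ∧ U.Nonempty ∧ IsOpen V ∧ V.Nonempty ∧
      Nt A U V ⊆ Nt A U₁ V₁ ∩ Nt A U₂ V₂ := by
  obtain ⟨n, ⟨x, hx1, hx2⟩, ⟨y, hy1, hy2⟩⟩ := step_c h hB hBb hU₁ hU₁' hV₁ hV₁' hU₂ hU₂' hV₂ hV₂'
  refine ⟨U₁ ∩ (A ^ n) ⁻¹' U₂, V₁ ∩ (A ^ n) ⁻¹' V₂,
    hU₁.inter (hU₂.preimage (A ^ n).continuous), ⟨x, hx1, hx2⟩,
    hV₁.inter (hV₂.preimage (A ^ n).continuous), ⟨y, hy1, hy2⟩, ?_⟩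
  rintro k ⟨z, hz, hkz⟩
  refine ⟨⟨z, hz.1, hkz.1⟩, ⟨(A ^ n) z, hz.2, ?_⟩⟩
  rw [← pow_add_apply', add_comm k n, pow_add_apply']
  exact hkz.2

/-- finitely many pairs -/
lemma step_d (h : Dense (range fun n : ℕ => (A ^ n) x0)) {B : Set X} (hB : Dense B)
    (hBb : ∀ x ∈ B, ∃ C : ℝ, ∀ n : ℕ, ‖(A ^ n) x‖ ≤ C) {ι : Type*} (s : Finset ι)
    (U V : ι → Set X) (hU : ∀ i ∈ s, IsOpen (U i) ∧ (U i).Nonempty)
    (hV : ∀ i ∈ s, IsOpen (V i) ∧ (V i).Nonempty) :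
    ∃ U' V' : Set X, IsOpen U' ∧ U'.Nonempty ∧ IsOpen V' ∧ V'.Nonempty ∧
      ∀ i ∈ s, Nt A U' V' ⊆ Nt A (U i) (V i) := by
  classical
  induction s using Finset.induction_on with
  | empty => exact ⟨univ, univ, isOpen_univ, univ_nonempty, isOpen_univ, univ_nonempty, by simp⟩
  | insert a s ha ih =>
    obtain ⟨U', V', h1, h2, h3, h4, h5⟩ := ih
      (fun i hi => hU i (Finset.mem_insert_of_mem hi)) (fun i hi => hV i (Finset.mem_insert_of_mem hi))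
    obtain ⟨hUa, hUa'⟩ := hU a (Finset.mem_insert_self a s)
    obtain ⟨hVa, hVa'⟩ := hV a (Finset.mem_insert_self a s)
    obtain ⟨U'', V'', g1, g2, g3, g4, g5⟩ := step_d2 h hB hBb hUa hUa' h1 h2 hVa hVa' h3 h4
    refine ⟨U'', V'', g1, g2, g3, g4, ?_⟩
    intro i hi
    rcases Finset.mem_insert.1 hi with rfl | hi
    · exact g5.trans inter_subset_left
    · exact (g5.trans inter_subset_right).trans (h5 i hi)

/-- common return times of finitely many pairs -/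
theorem exists_common (h : Dense (range fun n : ℕ => (A ^ n) x0)) {B : Set X} (hB : Dense B)
    (hBb : ∀ x ∈ B, ∃ C : ℝ, ∀ n : ℕ, ‖(A ^ n) x‖ ≤ C) {ι : Type*} (s : Finset ι)
    (U V : ι → Set X) (hU : ∀ i ∈ s, IsOpen (U i) ∧ (U i).Nonempty)
    (hV : ∀ i ∈ s, IsOpen (V i) ∧ (V i).Nonempty) :
    ∃ n : ℕ, ∀ i ∈ s, n ∈ Nt A (U i) (V i) := by
  obtain ⟨U', V', h1, h2, h3, h4, h5⟩ := step_d h hB hBb s U V hU hV
  obtain ⟨n, hn⟩ := Nt_nonempty h h1 h2 h3 h4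
  exact ⟨n, fun i hi => h5 i hi hn⟩

end

/-- a Kitai-type criterion -/
theorem criterion [CompleteSpace X] [TopologicalSpace.SeparableSpace X] (A : X →L[ℂ] X)
    {D E : Set X} (hD : Dense D) (hE : Dense E)
    (h1 : ∀ x ∈ D, Tendsto (fun n : ℕ => (A ^ n) x) atTop (𝓝 0))
    (h2 : ∀ y ∈ E, ∀ ε : ℝ, 0 < ε → ∀ᶠ n : ℕ in atTop, ∃ g : X, ‖g‖ < ε ∧ ‖(A ^ n) g - y‖ < ε) :
    ∃ x : X, Dense (range fun n : ℕ => (A ^ n) x) := by
  haveI : SecondCountableTopology X := UniformSpace.secondCountable_of_separable X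
  obtain ⟨b, hbc, hbe, hb⟩ := TopologicalSpace.exists_countable_basis X
  have hopen : ∀ V ∈ b, IsOpen {x : X | ∃ n : ℕ, (A ^ n) x ∈ V} := by
    intro V hV
    have : {x : X | ∃ n : ℕ, (A ^ n) x ∈ V} = ⋃ n : ℕ, (A ^ n) ⁻¹' V := by ext; simp
    rw [this]
    exact isOpen_iUnion fun n => (hb.isOpen hV).preimage (A ^ n).continuous
  have hdense : ∀ V ∈ b, Dense {x : X | ∃ n : ℕ, (A ^ n) x ∈ V} := by
    intro V hV
    have hVne : V.Nonempty := by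
      rw [nonempty_iff_ne_empty]; rintro rfl; exact hbe hV
    obtain ⟨y, hyV, hyE⟩ := hE.inter_open_nonempty V (hb.isOpen hV) hVne
    obtain ⟨ε, hε, hball⟩ := Metric.isOpen_iff.1 (hb.isOpen hV) y hyV
    rw [dense_iff_inter_open]
    intro U hU hUne
    obtain ⟨x, hxU, hxD⟩ := hD.inter_open_nonempty U hU hUne
    obtain ⟨δ, hδ, hballU⟩ := Metric.isOpen_iff.1 hU x hxU
    have e1 := h2 y hyE (min δ (ε / 2)) (by positivity)
    have e2 : ∀ᶠ n : ℕ in atTop, ‖(A ^ n) x‖ < ε / 2 := by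
      have := (h1 x hxD).norm
      rw [norm_zero] at this
      exact this.eventually (gt_mem_nhds (by positivity))
    obtain ⟨n, ⟨g, hg1, hg2⟩, hn⟩ := (e1.and e2).exists
    refine ⟨x + g, hballU ?_, n, hball ?_⟩
    · rw [Metric.mem_ball, dist_eq_norm, add_sub_cancel_left]
      exact hg1.trans_le (min_le_left _ _)
    · rw [Metric.mem_ball, dist_eq_norm, map_add]
      have e3 : (A ^ n) x + (A ^ n) g - y = (A ^ n) x + ((A ^ n) g - y) := by abel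
      rw [e3]
      refine (norm_add_le _ _).trans_lt ?_
      have := hg2.trans_le (min_le_right _ _)
      linarith
  have hcount : b.Countable := hbc
  have hG : Dense (⋂ V ∈ b, {x : X | ∃ n : ℕ, (A ^ n) x ∈ V}) :=
    dense_biInter_of_isOpen hopen hcount hdense
  obtain ⟨x, hx⟩ := hG.nonempty
  refine ⟨x, ?_⟩
  rw [hb.dense_iff]
  intro V hV _
  obtain ⟨n, hn⟩ := mem_iInter₂.1 hx V hV
  exact ⟨_, hn, ⟨n, rfl⟩⟩

end Pool.Agent.R884.Lip
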