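import Mathlib

/-!
Little Lipschitz spaces on rooted trees and weighted composition operators: definitions.
-/

namespace Pool.Agent.R884.Lip

/-- A locally finite rooted tree with vertex set `T`, given by its parent map (`par root = root`
by convention): every vertex reaches the root, every vertex has finitely many children, and every
vertex has a child, so only the root can have degree one. -/
structure RTree (T : Type*) where
  /-- the root -/
  root : T
  /-- the parent of a vertex (and `par root = root`) -/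
  par : T → T
  par_root : par root = root
  reach : ∀ v, ∃ n : ℕ, par^[n] v = root
  fin : ∀ u, {v | par v = u}.Finite
  child : ∀ v, ∃ w, w ≠ root ∧ par w = v

variable {T : Type*}

/-- `f ∈ L₀(T)`: for every `ε > 0` only finitely many edges have `|f(v) - f(v⁻)| ≥ ε`. -/
def IsLittle (R : RTree T) (f : T → ℂ) : Prop :=
  ∀ ε : ℝ, 0 < ε → {v | ε ≤ ‖f v - f (R.par v)‖}.Finite

/-- The norm `max (|f(o)|, sup |f(v) - f(v⁻)|)` of `L₀(T)` (the root contributes `0` to the
supremum). -/
noncomputable def nrm (R : RTree T) (f : T → ℂ) : ℝ :=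
  max ‖f R.root‖ (⨆ v, ‖f v - f (R.par v)‖)

/-- `C_φ` maps `L₀(T)` boundedly into itself. -/
def IsCompOp (R : RTree T) (φ : T → T) : Prop :=
  (∀ f, IsLittle R f → IsLittle R (f ∘ φ)) ∧
    ∃ C : ℝ, ∀ f, IsLittle R f → nrm R (f ∘ φ) ≤ C * nrm R f

/-- `f` is a hypercyclic vector of `lam • C_φ` on `L₀(T)`: the iterates
`(lam • C_φ) ^ n f = lam ^ n * f ∘ φ ^ n` are dense in `L₀(T)`. -/
def IsHypVec (R : RTree T) (φ : T → T) (lam : ℂ) (f : T → ℂ) : Prop :=
  IsLittle R f ∧ ∀ g, IsLittle R g → ∀ ε : ℝ, 0 < ε →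
    ∃ n : ℕ, nrm R (fun v => lam ^ n * f (φ^[n] v) - g v) < ε

/-- `M` is a hypercyclic subspace of `lam • C_φ` on `L₀(T)`: a closed infinite-dimensional
subspace of `L₀(T)` all of whose nonzero elements are hypercyclic vectors. -/
def IsHypSubspace (R : RTree T) (φ : T → T) (lam : ℂ) (M : Submodule ℂ (T → ℂ)) : Prop :=
  (∀ f ∈ M, IsLittle R f) ∧
  (∀ f, IsLittle R f → (∀ ε : ℝ, 0 < ε → ∃ g ∈ M, nrm R (f - g) < ε) → f ∈ M) ∧
  ¬ FiniteDimensional ℂ M ∧
  ∀ f ∈ M, f ≠ 0 → IsHypVec R φ lam f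

end Pool.Agent.R884.Lip
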