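import Pool.Agent.R884.Lip.Space
import Pool.Agent.R884.Lip.Abs

/-!
A rooted tree `T` and a bijection `φ` of `T` such that `lam • C_φ` is hypercyclic on the little
Lipschitz space of `T` whenever `1/2 < |lam| < 1`.
-/

namespace Pool.Agent.R884.Lip.Ex

open Filter Topology Set
open Pool.Agent.R884.Lip

/-- parent map -/
def par : ℕ × ℕ → ℕ × ℕ
  | (0, 0) => (0, 0)
  | (0, j + 1) => (0, j)
  | (1, j) => (0, j)
  | (e + 2, j) => (e + 1, j / 2)

/-- the doubling map -/
def phi : ℕ × ℕ → ℕ × ℕ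
  | (0, j) => (0, 2 * j + 1)
  | (1, j) => (0, 2 * j)
  | (e + 2, j) => (e + 1, j)

/-- the positive dyadic rational of a vertex -/
noncomputable def pos : ℕ × ℕ → ℝ
  | (0, j) => j + 1
  | (e + 1, j) => (2 * j + 1) / 2 ^ (e + 1)

/-- the ancestor on the axis -/
def axis : ℕ × ℕ → ℕ
  | (0, j) => j
  | (e + 1, j) => j / 2 ^ e

lemma finite_of_le {S : Set (ℕ × ℕ)} (a b : ℕ) (h : ∀ v ∈ S, v.1 ≤ a ∧ v.2 ≤ b) : S.Finite :=
  (Set.finite_Iic ((a, b) : ℕ × ℕ)).subset fun v hv => Prod.mk_le_mk.2 (h v hv)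

lemma reach_axis (j : ℕ) : par^[j] (0, j) = (0, 0) := by
  induction j with
  | zero => rfl
  | succ j ih =>
    rw [Function.iterate_succ_apply]
    exact ih

lemma reach (v : ℕ × ℕ) : ∃ n : ℕ, par^[n] v = (0, 0) := by
  obtain ⟨e, j⟩ := v
  induction e generalizing j with
  | zero => exact ⟨j, reach_axis j⟩
  | succ e ih =>
    cases e with
    | zero =>
      obtain ⟨n, hn⟩ := ih j
      exact ⟨n + 1, by rw [Function.iterate_succ_apply]; exact hn⟩
    | succ e =>
      obtain ⟨n, hn⟩ := ih (j / 2)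
      exact ⟨n + 1, by rw [Function.iterate_succ_apply]; exact hn⟩

lemma par_fin (v : ℕ × ℕ) : v.1 ≤ (par v).1 + 1 ∧ v.2 ≤ 2 * (par v).2 + 1 := by
  obtain ⟨e, j⟩ := v
  match e, j with
  | 0, 0 => simp [par]
  | 0, j + 1 => simp only [par]; omega
  | 1, j => simp only [par]; omega
  | e + 2, j => simp only [par]; omega

/-- the tree -/
def tree : RTree (ℕ × ℕ) where
  root := (0, 0)
  par := par
  par_root := rfl
  reach := reach
  fin u := finite_of_le (u.1 + 1) (2 * u.2 + 1) (by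
    rintro v rfl
    exact par_fin v)
  child v := by
    obtain ⟨e, j⟩ := v
    cases e with
    | zero => exact ⟨(0, j + 1), by simp, rfl⟩
    | succ e =>
      refine ⟨(e + 2, 2 * j), by simp, ?_⟩
      change (e + 1, 2 * j / 2) = (e + 1, j)
      rw [Nat.mul_div_cancel_left _ (by norm_num)]

lemma phi_inj : Function.Injective phi := by
  rintro ⟨e, j⟩ ⟨e', j'⟩ h
  match e, e' with
  | 0, 0 =>
    have h' : 2 * j + 1 = 2 * j' + 1 := congrArg Prod.snd h
    have : j = j' := by omega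
    rw [this]
  | 0, 1 => simp only [phi, Prod.mk.injEq] at h; omega
  | 0, e' + 2 => simp only [phi, Prod.mk.injEq] at h; omega
  | 1, 0 => simp only [phi, Prod.mk.injEq] at h; omega
  | 1, 1 =>
    have h' : 2 * j = 2 * j' := congrArg Prod.snd h
    have : j = j' := by omega
    rw [this]
  | 1, e' + 2 => simp only [phi, Prod.mk.injEq] at h; omega
  | e + 2, 0 => simp only [phi, Prod.mk.injEq] at h; omega
  | e + 2, 1 => simp only [phi, Prod.mk.injEq] at h; omega
  | e + 2, e' + 2 => simp only [phi, Prod.mk.injEq] at h ⊢; omega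

lemma phi_surj : Function.Surjective phi := by
  rintro ⟨e, j⟩
  cases e with
  | zero =>
    rcases Nat.even_or_odd' j with ⟨k, rfl | rfl⟩
    · exact ⟨(1, k), rfl⟩
    · exact ⟨(0, k), rfl⟩
  | succ e => exact ⟨(e + 2, j), rfl⟩

/-- first edge between `φ v` and `φ (par v)` -/
def u1 : ℕ × ℕ → ℕ × ℕ
  | (0, j) => (0, 2 * j + 1)
  | (1, j) => (0, 2 * j + 1)
  | (e + 2, j) => (e + 1, j)

/-- second edge between `φ v` and `φ (par v)` -/
def u2 : ℕ × ℕ → ℕ × ℕ
  | (0, j) => (0, 2 * j)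
  | (1, j) => (0, 2 * j)
  | (2, j) => (0, j)
  | (e + 3, j) => (e + 2, j)

lemma u1_fin (v : ℕ × ℕ) : v.1 ≤ (u1 v).1 + 2 ∧ v.2 ≤ (u1 v).2 := by
  obtain ⟨e, j⟩ := v
  match e with
  | 0 => simp only [u1]; omega
  | 1 => simp only [u1]; omega
  | e + 2 => simp only [u1]; omega

lemma u2_fin (v : ℕ × ℕ) : v.1 ≤ (u2 v).1 + 2 ∧ v.2 ≤ (u2 v).2 := by
  obtain ⟨e, j⟩ := v
  match e with
  | 0 => simp only [u2]; omega
  | 1 => simp only [u2]; omega
  | 2 => simp only [u2]; omega
  | e + 3 => simp only [u2]; omega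

lemma preimage_finite {h : ℕ × ℕ → ℕ × ℕ} (hh : ∀ v, v.1 ≤ (h v).1 + 2 ∧ v.2 ≤ (h v).2)
    {S : Set (ℕ × ℕ)} (hS : S.Finite) : {v | h v ∈ S}.Finite := by
  apply hS.preimage' (f := h)
  intro b _
  apply finite_of_le (b.1 + 2) b.2
  intro v hv
  have hv' : h v = b := hv
  rw [← hv']
  exact hh v

lemma diff_phi (f : ℕ × ℕ → ℂ) (v : ℕ × ℕ) : ‖f (phi v) - f (phi (par v))‖ ≤
    ‖f (u1 v) - f (par (u1 v))‖ + ‖f (u2 v) - f (par (u2 v))‖ := by
  obtain ⟨e, j⟩ := v
  match e, j with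
  | 0, 0 =>
    simp only [par, phi, sub_self, norm_zero]
    positivity
  | 0, j + 1 =>
    change ‖f (0, 2 * (j + 1) + 1) - f (0, 2 * j + 1)‖ ≤
      ‖f (0, 2 * (j + 1) + 1) - f (0, 2 * (j + 1))‖ + ‖f (0, 2 * (j + 1)) - f (0, 2 * j + 1)‖
    exact norm_sub_le_norm_sub_add_norm_sub _ _ _
  | 1, j =>
    change ‖f (0, 2 * j) - f (0, 2 * j + 1)‖ ≤ ‖f (0, 2 * j + 1) - f (0, 2 * j)‖ + _
    rw [norm_sub_rev]
    exact le_add_of_nonneg_right (norm_nonneg _)
  | 2, j =>
    change ‖f (1, j) - f (0, 2 * (j / 2))‖ ≤ ‖f (1, j) - f (0, j)‖ + ‖f (0, j) - f (par (0, j))‖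
    rcases Nat.even_or_odd' j with ⟨k, rfl | rfl⟩
    · rw [Nat.mul_div_cancel_left _ (by norm_num)]
      exact le_add_of_nonneg_right (norm_nonneg _)
    · have : (2 * k + 1) / 2 = k := by omega
      rw [this]
      change ‖f (1, 2 * k + 1) - f (0, 2 * k)‖ ≤ ‖f (1, 2 * k + 1) - f (0, 2 * k + 1)‖ +
        ‖f (0, 2 * k + 1) - f (0, 2 * k)‖
      exact norm_sub_le_norm_sub_add_norm_sub _ _ _
  | e + 3, j =>
    change ‖f (e + 2, j) - f (e + 1, j / 2)‖ ≤ ‖f (e + 2, j) - f (e + 1, j / 2)‖ + _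
    exact le_add_of_nonneg_right (norm_nonneg _)

lemma comp_little {f : ℕ × ℕ → ℂ} (hf : IsLittle tree f) : IsLittle tree (f ∘ phi) := by
  intro ε hε
  have h := hf (ε / 2) (by positivity)
  refine ((preimage_finite u1_fin h).union (preimage_finite u2_fin h)).subset ?_
  intro v hv
  by_contra hcon
  simp only [mem_union, mem_ofPred_eq, not_or, not_le] at hcon hv
  have h1 := diff_phi f v
  have h2 : ε ≤ ‖f (phi v) - f (phi (par v))‖ := hv
  have h3 : ‖f (u1 v) - f (par (u1 v))‖ < ε / 2 := hcon.1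
  have h4 : ‖f (u2 v) - f (par (u2 v))‖ < ε / 2 := hcon.2
  linarith

lemma isComp : IsCompOp tree phi := by
  refine ⟨fun f hf => comp_little hf, 2, fun f hf => ?_⟩
  apply nrm_le
  · have h1 := root_le_nrm (R := tree) f
    have h2 := diff_le_nrm hf (0, 1)
    change ‖f (0, 1)‖ ≤ _
    have h3 : ‖f (0, 0)‖ ≤ nrm tree f := h1
    have h4 : ‖f (0, 1) - f (0, 0)‖ ≤ nrm tree f := h2
    have h5 := norm_le_norm_sub_add (f (0, 1)) (f (0, 0))
    linarith
  · intro v
    have h1 := diff_phi f v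
    have h2 := diff_le_nrm hf (u1 v)
    have h3 := diff_le_nrm hf (u2 v)
    change ‖f (phi v) - f (phi (par v))‖ ≤ _
    change ‖f (u1 v) - f (par (u1 v))‖ ≤ _ at h2
    change ‖f (u2 v) - f (par (u2 v))‖ ≤ _ at h3
    linarith

/-! ### positions -/

lemma pos_phi (v : ℕ × ℕ) : pos (phi v) = 2 * pos v := by
  obtain ⟨e, j⟩ := v
  match e with
  | 0 => simp only [phi, pos]; push_cast; ring
  | 1 => simp only [phi, pos]; push_cast; ring
  | e + 2 =>
    simp only [phi, pos]
    field_simp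
    ring

lemma pos_phi_iter (n : ℕ) (v : ℕ × ℕ) : pos (phi^[n] v) = 2 ^ n * pos v := by
  induction n with
  | zero => simp
  | succ n ih =>
    rw [Function.iterate_succ_apply', pos_phi, ih]
    ring

lemma phi_level (v : ℕ × ℕ) : (phi v).1 = v.1 - 1 := by
  obtain ⟨e, j⟩ := v
  match e with
  | 0 => rfl
  | 1 => rfl
  | e + 2 => rfl

lemma phi_iter_level (n : ℕ) (v : ℕ × ℕ) : (phi^[n] v).1 = v.1 - n := by
  induction n with
  | zero => rfl
  | succ n ih =>
    rw [Function.iterate_succ_apply', phi_level, ih]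
    omega

lemma sep {u w : ℕ × ℕ} (huw : u ≠ w) {m : ℕ} (hu : u.1 ≤ m) (hw : w.1 ≤ m) :
    1 / 2 ^ m ≤ |pos u - pos w| := by
  have h1 : (phi^[m] u).1 = 0 := by rw [phi_iter_level]; omega
  have h2 : (phi^[m] w).1 = 0 := by rw [phi_iter_level]; omega
  have h3 : phi^[m] u ≠ phi^[m] w := fun h => huw (phi_inj.iterate m h)
  obtain ⟨a, ha⟩ : ∃ a, phi^[m] u = (0, a) := ⟨_, Prod.ext h1 rfl⟩
  obtain ⟨b, hb⟩ : ∃ b, phi^[m] w = (0, b) := ⟨_, Prod.ext h2 rfl⟩
  have h4 : a ≠ b := by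
    rintro rfl
    exact h3 (ha.trans hb.symm)
  have h5 := pos_phi_iter m u
  have h6 := pos_phi_iter m w
  rw [ha, show pos (0, a) = (a : ℝ) + 1 from rfl] at h5
  rw [hb, show pos (0, b) = (b : ℝ) + 1 from rfl] at h6
  have h7 : (2 : ℝ) ^ m * (pos u - pos w) = (a : ℝ) - b := by linarith
  have h8 : (1 : ℝ) ≤ |(a : ℝ) - b| := by
    have : (1 : ℤ) ≤ |(a : ℤ) - b| := Int.one_le_abs (by omega)
    exact_mod_cast this
  rw [← h7, abs_mul, abs_of_pos (by positivity : (0 : ℝ) < 2 ^ m)] at h8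
  rw [div_le_iff₀ (by positivity)]
  linarith

lemma pos_par_zero (j : ℕ) : pos (0, j + 1) - pos (par (0, j + 1)) = 1 := by
  simp only [par, pos]; push_cast; ring

lemma pos_par (e j : ℕ) : |pos (e + 1, j) - pos (par (e + 1, j))| = 1 / 2 ^ (e + 1) := by
  cases e with
  | zero =>
    simp only [par, pos]
    have : (2 * (j : ℝ) + 1) / 2 ^ (0 + 1) - (j + 1) = -(1 / 2) := by ring
    rw [this, abs_neg]
    norm_num
  | succ e =>
    simp only [par, pos]
    rcases Nat.even_or_odd' j with ⟨k, rfl | rfl⟩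
    · rw [Nat.mul_div_cancel_left _ (by norm_num)]
      have : (2 * ((2 * k : ℕ) : ℝ) + 1) / 2 ^ (e + 1 + 1) - (2 * k + 1) / 2 ^ (e + 1) =
          -(1 / 2 ^ (e + 1 + 1)) := by
        push_cast
        field_simp
        ring
      rw [this, abs_neg, abs_of_pos (by positivity)]
    · have h : (2 * k + 1) / 2 = k := by omega
      rw [h]
      have : (2 * ((2 * k + 1 : ℕ) : ℝ) + 1) / 2 ^ (e + 1 + 1) - (2 * k + 1) / 2 ^ (e + 1) =
          1 / 2 ^ (e + 1 + 1) := by
        push_cast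
        field_simp
        ring
      rw [this, abs_of_pos (by positivity)]

lemma pos_pos (v : ℕ × ℕ) : 1 / 2 ^ v.1 ≤ pos v := by
  obtain ⟨e, j⟩ := v
  cases e with
  | zero => simp [pos]
  | succ e =>
    simp only [pos]
    have : (0 : ℝ) ≤ j := Nat.cast_nonneg j
    gcongr
    linarith

lemma axis_par (e j : ℕ) : axis (par (e + 1, j)) = axis (e + 1, j) := by
  cases e with
  | zero => simp [par, axis]
  | succ e =>
    simp only [par, axis]
    rw [Nat.div_div_eq_div_mul, pow_succ', ]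

lemma axis_pos (v : ℕ × ℕ) : |(axis v : ℝ) + 1 - pos v| ≤ 1 := by
  obtain ⟨e, j⟩ := v
  cases e with
  | zero => simp [axis, pos]
  | succ e =>
    simp only [axis, pos]
    set q := j / 2 ^ e with hq
    have h1 : q * 2 ^ e ≤ j := Nat.div_mul_le_self _ _
    have h2 : j + 1 ≤ (q + 1) * 2 ^ e := by
      have := Nat.lt_div_mul_add (a := j) (b := 2 ^ e) (by positivity)
      rw [← hq] at this
      nlinarith
    have h1' : (q : ℝ) * 2 ^ e ≤ j := by exact_mod_cast h1
    have h2' : (j : ℝ) + 1 ≤ (q + 1) * 2 ^ e := by exact_mod_cast h2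
    have hp : (0 : ℝ) < 2 ^ e := by positivity
    rw [abs_le]
    constructor
    · have : (2 * (j : ℝ) + 1) / 2 ^ (e + 1) ≤ q + 1 := by
        rw [div_le_iff₀ (by positivity), pow_succ]
        nlinarith
      linarith
    · have : (q : ℝ) ≤ (2 * (j : ℝ) + 1) / 2 ^ (e + 1) := by
        rw [le_div_iff₀ (by positivity), pow_succ]
        nlinarith
      linarith

/-- distances of the two ends of an edge to a vertex -/
lemma dist_dich {v w : ℕ × ℕ} (h1 : v ≠ w) (h2 : par v ≠ w) :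
    (1 / 2 ^ (w.1 + 1) ≤ |pos v - pos w| ∧ 1 / 2 ^ (w.1 + 1) ≤ |pos (par v) - pos w|) ∨
    (|pos v - pos w| ≤ 2 * |pos (par v) - pos w| ∧ |pos (par v) - pos w| ≤ 2 * |pos v - pos w|) := by
  have hle : (1 : ℝ) / 2 ^ (w.1 + 1) ≤ 1 / 2 ^ w.1 := by
    apply one_div_le_one_div_of_le (by positivity)
    exact pow_le_pow_right₀ (by norm_num) (by omega)
  have hlev : (par v).1 ≤ v.1 := by
    obtain ⟨e, j⟩ := v
    match e, j with
    | 0, 0 => exact le_rfl
    | 0, j + 1 => exact le_rfl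
    | 1, j => exact Nat.zero_le _
    | e + 2, j => exact Nat.le_succ _
  by_cases hv : v.1 ≤ w.1
  · left
    exact ⟨hle.trans (sep h1 hv le_rfl), hle.trans (sep h2 (hlev.trans hv) le_rfl)⟩
  · right
    obtain ⟨e, j⟩ := v
    simp only [not_le] at hv
    obtain ⟨e', rfl⟩ : ∃ e', e = e' + 1 := ⟨e - 1, by omega⟩
    have h3 := pos_par e' j
    have h4 : (par (e' + 1, j)).1 ≤ e' := by
      cases e' with
      | zero => exact le_rfl
      | succ e' => exact le_rfl
    have h5 := sep h2 h4 (by omega : w.1 ≤ e')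
    have h6 : (1 : ℝ) / 2 ^ e' = 2 * (1 / 2 ^ (e' + 1)) := by
      rw [pow_succ]; field_simp
    have h7 := abs_sub_abs_le_abs_sub (pos (e' + 1, j) - pos w) (pos (par (e' + 1, j)) - pos w)
    have h8 := abs_sub_abs_le_abs_sub (pos (par (e' + 1, j)) - pos w) (pos (e' + 1, j) - pos w)
    have e1 : pos (e' + 1, j) - pos w - (pos (par (e' + 1, j)) - pos w) =
      pos (e' + 1, j) - pos (par (e' + 1, j)) := by ring
    have e2 : pos (par (e' + 1, j)) - pos w - (pos (e' + 1, j) - pos w) =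
      -(pos (e' + 1, j) - pos (par (e' + 1, j))) := by ring
    rw [e1, h3] at h7
    rw [e2, abs_neg, h3] at h8
    constructor <;> linarith

/-- distance of the parent -/
lemma dist_par {v : ℕ × ℕ} (hv : v ≠ (0, 0)) :
    1 / 2 ^ (v.1 + 1) ≤ |pos v - pos (par v)| ∧
      1 / 2 ^ ((par v).1 + 1) ≤ |pos v - pos (par v)| := by
  obtain ⟨e, j⟩ := v
  match e, j with
  | 0, 0 => exact absurd rfl hv
  | 0, j + 1 =>
    rw [pos_par_zero]
    norm_num [par]
  | 1, j =>
    rw [pos_par]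
    norm_num [par]
  | e + 2, j =>
    rw [pos_par]
    simp only [par]
    refine ⟨?_, le_rfl⟩
    apply one_div_le_one_div_of_le (by positivity)
    exact pow_le_pow_right₀ (by norm_num) (by omega)

/-! ### the profile -/

/-- the profile -/
noncomputable def psi (c ρ M x : ℝ) : ℝ :=
  max 0 (min 1 ((Real.log ρ - Real.log (max |x - c| (ρ * Real.exp (-M)))) / M))

section
variable {c ρ M : ℝ} (hρ : 0 < ρ) (hM : 0 < M)
include hρ hM

lemma psi_self : psi c ρ M c = 1 := by
  unfold psi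
  have h1 : max |c - c| (ρ * Real.exp (-M)) = ρ * Real.exp (-M) := by
    rw [sub_self, abs_zero]
    exact max_eq_right (by positivity)
  rw [h1, Real.log_mul hρ.ne' (Real.exp_pos _).ne', Real.log_exp]
  have : (Real.log ρ - (Real.log ρ + -M)) / M = 1 := by
    field_simp
    ring
  rw [this]
  norm_num

lemma psi_zero {x : ℝ} (h : ρ ≤ |x - c|) : psi c ρ M x = 0 := by
  unfold psi
  have h1 : Real.log ρ ≤ Real.log (max |x - c| (ρ * Real.exp (-M))) :=
    Real.log_le_log hρ (h.trans (le_max_left _ _))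
  apply max_eq_left
  refine (min_le_right _ _).trans ?_
  apply div_nonpos_of_nonpos_of_nonneg _ hM.le
  linarith

lemma psi_diff (x y : ℝ) : |psi c ρ M x - psi c ρ M y| ≤
    |Real.log (max |x - c| (ρ * Real.exp (-M))) -
      Real.log (max |y - c| (ρ * Real.exp (-M)))| / M := by
  unfold psi
  refine (abs_max_sub_max_le_max _ _ _ _).trans ?_
  rw [sub_self, abs_zero]
  apply max_le (by positivity)
  refine (abs_min_sub_min_le_max _ _ _ _).trans ?_
  rw [sub_self, abs_zero]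
  apply max_le (by positivity)
  rw [← sub_div, abs_div, abs_of_pos hM]
  have : Real.log ρ - Real.log (max |x - c| (ρ * Real.exp (-M))) -
      (Real.log ρ - Real.log (max |y - c| (ρ * Real.exp (-M)))) =
      -(Real.log (max |x - c| (ρ * Real.exp (-M))) -
      Real.log (max |y - c| (ρ * Real.exp (-M)))) := by ring
  rw [this, abs_neg]

omit hρ hM in
lemma log_diff {a b s : ℝ} (hs : 0 < s) (ha : s ≤ a) (hb : s ≤ b) :
    |Real.log a - Real.log b| ≤ |a - b| / s := by
  have key : ∀ a b : ℝ, s ≤ a → s ≤ b → Real.log a - Real.log b ≤ |a - b| / s := by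
    intro a b ha hb
    have ha0 : 0 < a := hs.trans_le ha
    have hb0 : 0 < b := hs.trans_le hb
    rw [← Real.log_div ha0.ne' hb0.ne']
    have h1 := Real.log_le_sub_one_of_pos (div_pos ha0 hb0)
    have h2 : a / b - 1 = (a - b) / b := by field_simp
    rw [h2] at h1
    refine h1.trans ?_
    refine (div_le_div_of_nonneg_right (le_abs_self _) hb0.le).trans ?_
    exact div_le_div_of_nonneg_left (abs_nonneg _) hs hb
  rw [abs_le]
  constructor
  · have := key b a hb ha
    rw [abs_sub_comm] at this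
    linarith
  · exact key a b ha hb

lemma psi_lip (x y : ℝ) : |psi c ρ M x - psi c ρ M y| ≤ |x - y| / (ρ * Real.exp (-M) * M) := by
  refine (psi_diff hρ hM x y).trans ?_
  rw [← div_div]
  apply div_le_div_of_nonneg_right _ hM.le
  have hs : 0 < ρ * Real.exp (-M) := by positivity
  refine (log_diff hs (le_max_right _ _) (le_max_right _ _)).trans ?_
  apply div_le_div_of_nonneg_right _ hs.le
  refine (abs_max_sub_max_le_abs _ _ _).trans ?_
  refine (abs_abs_sub_abs_le_abs_sub _ _).trans (le_of_eq ?_)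
  congr 1
  ring

lemma psi_ratio {x y : ℝ} (h1 : |x - c| ≤ 2 * |y - c|) (h2 : |y - c| ≤ 2 * |x - c|) :
    |psi c ρ M x - psi c ρ M y| ≤ Real.log 2 / M := by
  refine (psi_diff hρ hM x y).trans ?_
  apply div_le_div_of_nonneg_right _ hM.le
  have hs : 0 < ρ * Real.exp (-M) := by positivity
  set s := ρ * Real.exp (-M)
  have key : ∀ a b : ℝ, a ≤ 2 * b → Real.log (max a s) - Real.log (max b s) ≤ Real.log 2 := by
    intro a b hab
    have hb0 : 0 < max b s := hs.trans_le (le_max_right _ _)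
    have ha0 : 0 < max a s := hs.trans_le (le_max_right _ _)
    have h3 : max a s ≤ 2 * max b s := by
      apply max_le
      · exact hab.trans (by linarith [le_max_left b s])
      · linarith [le_max_right b s]
    have h4 := Real.log_le_log ha0 h3
    rw [Real.log_mul (by norm_num) hb0.ne'] at h4
    linarith
  rw [abs_le]
  exact ⟨by linarith [key _ _ h2], key _ _ h1⟩

end

/-- indicator -/
noncomputable def chi (w : ℕ × ℕ) : LZ tree :=
  LZ.mk (Pi.single w 1) (little_of_finite ((Set.finite_singleton w).subset (by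
    intro v hv
    by_contra hne
    exact hv (Pi.single_eq_of_ne hne _))))

lemma chi_fn (w : ℕ × ℕ) : (chi w).fn = Pi.single w 1 := rfl

section
variable {lam : ℂ} (h1 : 1 / 2 < ‖lam‖) (h2 : ‖lam‖ < 1)

lemma lam_ne (h1 : 1 / 2 < ‖lam‖) : lam ≠ 0 := by
  rintro rfl
  rw [norm_zero] at h1
  norm_num at h1

/-- the approximate preimages -/
noncomputable def gfun (lam : ℂ) (c ρ M : ℝ) (n : ℕ) : ℕ × ℕ → ℂ := fun v =>
  (lam ^ n)⁻¹ * ((psi c ρ M (((axis v : ℝ) + 1) / 2 ^ n) : ℝ) : ℂ)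

lemma gfun_par (lam : ℂ) (c ρ M : ℝ) (n e j : ℕ) :
    gfun lam c ρ M n (par (e + 1, j)) = gfun lam c ρ M n (e + 1, j) := by
  unfold gfun
  rw [axis_par]

lemma gfun_little (lam : ℂ) {c ρ M : ℝ} (hρ : 0 < ρ) (hM : 0 < M) (n : ℕ) :
    IsLittle tree (gfun lam c ρ M n) := by
  intro ε hε
  apply finite_of_le 0 (⌈2 ^ n * (c + ρ)⌉₊ + 1)
  rintro ⟨e, j⟩ hv
  have hv' : ε ≤ ‖gfun lam c ρ M n (e, j) - gfun lam c ρ M n (par (e, j))‖ := hv
  cases e with
  | succ e =>
    rw [gfun_par, sub_self, norm_zero] at hv'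
    linarith
  | zero =>
    refine ⟨le_rfl, ?_⟩
    by_contra hcon
    simp only [not_le] at hcon
    obtain ⟨k, rfl⟩ : ∃ k, j = k + 1 := ⟨j - 1, by omega⟩
    have hk : ⌈2 ^ n * (c + ρ)⌉₊ ≤ k := by omega
    have hk' : 2 ^ n * (c + ρ) ≤ (k : ℝ) := (Nat.le_ceil _).trans (by exact_mod_cast hk)
    have hz : ∀ x : ℝ, (k : ℝ) ≤ x → psi c ρ M (x / 2 ^ n) = 0 := by
      intro x hx
      apply psi_zero hρ hM
      have : c + ρ ≤ x / 2 ^ n := by
        rw [le_div_iff₀ (by positivity)]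
        linarith
      exact le_trans (by linarith) (le_abs_self _)
    have e1 : gfun lam c ρ M n (0, k + 1) = 0 := by
      unfold gfun
      simp only [axis]
      rw [hz _ (by push_cast; linarith)]
      simp
    have e2 : gfun lam c ρ M n (par (0, k + 1)) = 0 := by
      unfold gfun
      simp only [axis, par]
      rw [hz _ (by linarith)]
      simp
    rw [e1, e2, sub_zero, norm_zero] at hv'
    linarith

/-- approximate preimages as elements of the space -/
noncomputable def gel (lam : ℂ) {c ρ M : ℝ} (hρ : 0 < ρ) (hM : 0 < M) (n : ℕ) : LZ tree :=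
  LZ.mk (gfun lam c ρ M n) (gfun_little lam hρ hM n)

lemma gel_norm (lam : ℂ) {c ρ M : ℝ} (hρ : 0 < ρ) (hM : 0 < M) (hc : ρ ≤ c) (n : ℕ) :
    ‖gel lam (c := c) hρ hM n‖ ≤ (‖lam‖ ^ n)⁻¹ * (1 / 2 ^ n / (ρ * Real.exp (-M) * M)) := by
  have hs : 0 < ρ * Real.exp (-M) * M := by positivity
  apply norm_le
  · change ‖gfun lam c ρ M n (0, 0)‖ ≤ _
    unfold gfun
    rw [norm_mul, norm_inv, norm_pow, Complex.norm_real, Real.norm_eq_abs]
    apply mul_le_mul_of_nonneg_left _ (by positivity)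
    have h0 : psi c ρ M 0 = 0 := by
      apply psi_zero hρ hM
      rw [zero_sub, abs_neg]
      exact hc.trans (le_abs_self c)
    have := psi_lip (c := c) hρ hM (((axis (0, 0) : ℝ) + 1) / 2 ^ n) 0
    rw [h0, sub_zero, sub_zero] at this
    refine this.trans (le_of_eq ?_)
    congr 1
    simp only [axis]
    rw [abs_of_pos (by positivity)]
    norm_num
  · rintro ⟨e, j⟩
    change ‖gfun lam c ρ M n (e, j) - gfun lam c ρ M n (par (e, j))‖ ≤ _
    match e, j with
    | e + 1, j =>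
      rw [gfun_par, sub_self, norm_zero]
      positivity
    | 0, 0 =>
      simp only [par, sub_self, norm_zero]
      positivity
    | 0, j + 1 =>
      unfold gfun
      rw [← mul_sub, ← Complex.ofReal_sub, norm_mul, norm_inv, norm_pow, Complex.norm_real,
        Real.norm_eq_abs]
      apply mul_le_mul_of_nonneg_left _ (by positivity)
      refine (psi_lip hρ hM _ _).trans (le_of_eq ?_)
      congr 1
      simp only [axis, par]
      rw [← sub_div, abs_div, abs_of_pos (by positivity : (0 : ℝ) < 2 ^ n)]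
      congr 1
      push_cast
      rw [show (j : ℝ) + 1 + 1 - (j + 1) = 1 by ring, abs_one]

lemma pow_gel (hl : lam ≠ 0) {c ρ M : ℝ} (hρ : 0 < ρ) (hM : 0 < M) (n : ℕ) (v : ℕ × ℕ) :
    ((cop isComp lam ^ n) (gel lam (c := c) hρ hM n)).fn v =
      ((psi c ρ M (((axis (phi^[n] v) : ℝ) + 1) / 2 ^ n) : ℝ) : ℂ) := by
  rw [cop_pow_fn]
  change lam ^ n * ((lam ^ n)⁻¹ * _) = _
  rw [mul_inv_cancel_left₀ (pow_ne_zero n hl)]

lemma psi_close {c ρ M : ℝ} (hρ : 0 < ρ) (hM : 0 < M) (n : ℕ) (v : ℕ × ℕ) :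
    |psi c ρ M (((axis (phi^[n] v) : ℝ) + 1) / 2 ^ n) - psi c ρ M (pos v)| ≤
      1 / 2 ^ n / (ρ * Real.exp (-M) * M) := by
  refine (psi_lip hρ hM _ _).trans ?_
  apply div_le_div_of_nonneg_right _ (by positivity)
  have h1 := axis_pos (phi^[n] v)
  rw [pos_phi_iter] at h1
  have h2 : ((axis (phi^[n] v) : ℝ) + 1) / 2 ^ n - pos v =
      ((axis (phi^[n] v) : ℝ) + 1 - 2 ^ n * pos v) / 2 ^ n := by
    field_simp
  rw [h2, abs_div, abs_of_pos (by positivity : (0 : ℝ) < 2 ^ n)]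
  exact div_le_div_of_nonneg_right h1 (by positivity)

/-- `Ψ ∘ pos` is close to the indicator -/
lemma F_close (w v : ℕ × ℕ) {M : ℝ} (hM : 0 < M) :
    |(psi (pos w) (1 / 2 ^ (w.1 + 1)) M (pos v) - (Pi.single w (1 : ℝ) : ℕ × ℕ → ℝ) v) -
      (psi (pos w) (1 / 2 ^ (w.1 + 1)) M (pos (par v)) -
        (Pi.single w (1 : ℝ) : ℕ × ℕ → ℝ) (par v))| ≤ Real.log 2 / M := by
  have hρ : (0 : ℝ) < 1 / 2 ^ (w.1 + 1) := by positivity
  have hlog : 0 ≤ Real.log 2 / M := div_nonneg (Real.log_nonneg (by norm_num)) hM.le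
  by_cases hr : v = (0, 0)
  · have : par v = v := by rw [hr]; rfl
    rw [this, sub_self, abs_zero]
    exact hlog
  have hd := dist_par hr
  by_cases hv : v = w
  · subst hv
    have hne : par v ≠ v := by
      intro h
      have := hd.1
      rw [h, sub_self, abs_zero] at this
      linarith
    rw [psi_self hρ hM, Pi.single_eq_same, Pi.single_eq_of_ne hne, psi_zero hρ hM]
    · simpa using hlog
    · rw [abs_sub_comm]; exact hd.1
  by_cases hp : par v = w
  · subst hp
    rw [psi_self hρ hM, Pi.single_eq_same, Pi.single_eq_of_ne hv, psi_zero hρ hM]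
    · simpa using hlog
    · exact hd.2
  rw [Pi.single_eq_of_ne hv, Pi.single_eq_of_ne hp, sub_zero, sub_zero]
  rcases dist_dich hv hp with ⟨a1, a2⟩ | ⟨a1, a2⟩
  · rw [psi_zero hρ hM a1, psi_zero hρ hM a2, sub_zero, abs_zero]
    exact hlog
  · exact psi_ratio hρ hM a1 a2

/-- the value at the root -/
lemma F_root (w : ℕ × ℕ) {M : ℝ} (hM : 0 < M) :
    psi (pos w) (1 / 2 ^ (w.1 + 1)) M (pos (0, 0)) - (Pi.single w (1 : ℝ) : ℕ × ℕ → ℝ) (0, 0)
      = 0 := by
  have hρ : (0 : ℝ) < 1 / 2 ^ (w.1 + 1) := by positivity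
  by_cases h : w = (0, 0)
  · subst h
    rw [psi_self hρ hM, Pi.single_eq_same, sub_self]
  · rw [Pi.single_eq_of_ne (Ne.symm h), sub_zero]
    apply psi_zero hρ hM
    have h1 := sep (Ne.symm h) (Nat.zero_le _) (le_refl w.1)
    refine le_trans ?_ h1
    apply one_div_le_one_div_of_le (by positivity)
    exact pow_le_pow_right₀ (by norm_num) (by omega)

lemma approx_chi (h1 : 1 / 2 < ‖lam‖) (w : ℕ × ℕ) {ε : ℝ} (hε : 0 < ε) :
    ∀ᶠ n : ℕ in atTop, ∃ g : LZ tree, ‖g‖ < ε ∧ ‖(cop isComp lam ^ n) g - chi w‖ < ε := by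
  have hlam := lam_ne h1
  set ρ : ℝ := 1 / 2 ^ (w.1 + 1) with hρdef
  have hρ : 0 < ρ := by positivity
  set M : ℝ := 2 * (Real.log 2 / ε) + 1 with hMdef
  have hlog : 0 < Real.log 2 := Real.log_pos (by norm_num)
  have hM : 0 < M := by positivity
  have hlM : Real.log 2 / M < ε / 2 := by
    rw [div_lt_iff₀ hM, hMdef]
    have : ε / 2 * (2 * (Real.log 2 / ε) + 1) = Real.log 2 + ε / 2 := by
      field_simp
    rw [this]
    linarith
  set s : ℝ := ρ * Real.exp (-M) * M with hs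
  have hspos : 0 < s := by positivity
  have hc : ρ ≤ pos w := by
    refine le_trans ?_ (pos_pos w)
    apply one_div_le_one_div_of_le (by positivity)
    exact pow_le_pow_right₀ (by norm_num) (by omega)
  have t1 : Tendsto (fun n : ℕ => (‖lam‖ ^ n)⁻¹ * (1 / 2 ^ n / s)) atTop (𝓝 0) := by
    have e : ∀ n : ℕ, (‖lam‖ ^ n)⁻¹ * (1 / 2 ^ n / s) = ((2 * ‖lam‖)⁻¹) ^ n * (1 / s) := by
      intro n
      rw [inv_pow, mul_pow, mul_inv]
      ring
    simp only [e]
    have h3 : Tendsto (fun n : ℕ => ((2 * ‖lam‖)⁻¹) ^ n) atTop (𝓝 0) := by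
      apply tendsto_pow_atTop_nhds_zero_of_lt_one (by positivity)
      apply inv_lt_one_of_one_lt₀
      linarith
    have := h3.mul_const (1 / s)
    rwa [zero_mul] at this
  have t2 : Tendsto (fun n : ℕ => (1 : ℝ) / 2 ^ n / s) atTop (𝓝 0) := by
    have e : ∀ n : ℕ, (1 : ℝ) / 2 ^ n / s = ((2 : ℝ)⁻¹) ^ n * (1 / s) := by
      intro n
      rw [inv_pow]
      ring
    simp only [e]
    have h3 : Tendsto (fun n : ℕ => ((2 : ℝ)⁻¹) ^ n) atTop (𝓝 0) := by
      apply tendsto_pow_atTop_nhds_zero_of_lt_one (by positivity)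
      norm_num
    have := h3.mul_const (1 / s)
    rwa [zero_mul] at this
  have ev1 := t1.eventually (gt_mem_nhds hε)
  have ev2 := t2.eventually (gt_mem_nhds (show 0 < ε / 4 by positivity))
  filter_upwards [ev1, ev2] with n hn1 hn2
  refine ⟨gel lam (c := pos w) hρ hM n, (gel_norm lam hρ hM hc n).trans_lt hn1, ?_⟩
  -- pointwise description of the difference
  have hval : ∀ v, ((cop isComp lam ^ n) (gel lam (c := pos w) hρ hM n) - chi w).fn v =
      ((psi (pos w) ρ M (((axis (phi^[n] v) : ℝ) + 1) / 2 ^ n) -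
        (Pi.single w (1 : ℝ) : ℕ × ℕ → ℝ) v : ℝ) : ℂ) := by
    intro v
    rw [fn_sub, Pi.sub_apply, pow_gel hlam, chi_fn, Complex.ofReal_sub]
    congr 1
    by_cases hv : v = w
    · subst hv; simp
    · rw [Pi.single_eq_of_ne hv, Pi.single_eq_of_ne hv]; simp
  have hcl := fun v => psi_close (c := pos w) hρ hM n v
  have hb : ‖(cop isComp lam ^ n) (gel lam (c := pos w) hρ hM n) - chi w‖ ≤
      Real.log 2 / M + 2 * (1 / 2 ^ n / s) := by
    have hq : 0 ≤ 1 / 2 ^ n / s := by positivity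
    have hq2 : 0 ≤ Real.log 2 / M := by positivity
    apply norm_le
    · rw [hval, Complex.norm_real, Real.norm_eq_abs]
      change |psi (pos w) ρ M (((axis (phi^[n] (0, 0)) : ℝ) + 1) / 2 ^ n) -
        (Pi.single w (1 : ℝ) : ℕ × ℕ → ℝ) (0, 0)| ≤ _
      have hr := F_root w hM
      have h3 := hcl (0, 0)
      have e : psi (pos w) ρ M (((axis (phi^[n] (0, 0)) : ℝ) + 1) / 2 ^ n) -
        (Pi.single w (1 : ℝ) : ℕ × ℕ → ℝ) (0, 0) =
        psi (pos w) ρ M (((axis (phi^[n] (0, 0)) : ℝ) + 1) / 2 ^ n) - psi (pos w) ρ M (pos (0, 0))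
          := by linarith
      rw [e]
      linarith
    · intro v
      rw [hval, hval, ← Complex.ofReal_sub, Complex.norm_real, Real.norm_eq_abs]
      have h3 := hcl v
      have h4 := hcl (tree.par v)
      have h5 := F_close w v hM
      change |_ - (psi (pos w) ρ M (pos (tree.par v)) -
        (Pi.single w (1 : ℝ) : ℕ × ℕ → ℝ) (tree.par v))| ≤ _ at h5
      set a1 := psi (pos w) ρ M (((axis (phi^[n] v) : ℝ) + 1) / 2 ^ n)
      set a2 := psi (pos w) ρ M (((axis (phi^[n] (tree.par v)) : ℝ) + 1) / 2 ^ n)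
      set b1 := psi (pos w) ρ M (pos v)
      set b2 := psi (pos w) ρ M (pos (tree.par v))
      set c1 := (Pi.single w (1 : ℝ) : ℕ × ℕ → ℝ) v
      set c2 := (Pi.single w (1 : ℝ) : ℕ × ℕ → ℝ) (tree.par v)
      have e : a1 - c1 - (a2 - c2) = (a1 - b1) + (-(a2 - b2)) + (b1 - c1 - (b2 - c2)) := by ring
      rw [e]
      refine (abs_add_three _ _ _).trans ?_
      rw [abs_neg]
      linarith
  refine hb.trans_lt ?_
  linarith

/-- the set of approximable vectors -/
def Appr (lam : ℂ) : Set (LZ tree) :=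
  {y | ∀ ε : ℝ, 0 < ε → ∀ᶠ n : ℕ in atTop, ∃ g : LZ tree, ‖g‖ < ε ∧
    ‖(cop isComp lam ^ n) g - y‖ < ε}

lemma appr_zero : (0 : LZ tree) ∈ Appr lam := by
  intro ε hε
  exact Eventually.of_forall fun n => ⟨0, by simpa using hε, by simpa using hε⟩

lemma appr_add {x y : LZ tree} (hx : x ∈ Appr lam) (hy : y ∈ Appr lam) : x + y ∈ Appr lam := by
  intro ε hε
  filter_upwards [hx (ε / 2) (by positivity), hy (ε / 2) (by positivity)] with n hn1 hn2
  obtain ⟨g, hg1, hg2⟩ := hn1
  obtain ⟨g', hg1', hg2'⟩ := hn2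
  refine ⟨g + g', (norm_add_le _ _).trans_lt (by linarith), ?_⟩
  have e : (cop isComp lam ^ n) (g + g') - (x + y) =
    ((cop isComp lam ^ n) g - x) + ((cop isComp lam ^ n) g' - y) := by
    rw [map_add]; abel
  rw [e]
  exact (norm_add_le _ _).trans_lt (by linarith)

lemma appr_smul (c : ℂ) {x : LZ tree} (hx : x ∈ Appr lam) : c • x ∈ Appr lam := by
  intro ε hε
  have hc : 0 < ‖c‖ + 1 := by positivity
  filter_upwards [hx (ε / (‖c‖ + 1)) (by positivity)] with n hn
  obtain ⟨g, hg1, hg2⟩ := hn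
  have key : ∀ z : LZ tree, ‖z‖ < ε / (‖c‖ + 1) → ‖c • z‖ < ε := by
    intro z hz
    rw [norm_smul]
    rw [lt_div_iff₀ hc] at hz
    nlinarith [norm_nonneg z, norm_nonneg c]
  refine ⟨c • g, key g hg1, ?_⟩
  rw [map_smul, ← smul_sub]
  exact key _ hg2

/-- the span of the indicators contains all finitely supported elements -/
lemma fs_le_span : Fs tree ≤ Submodule.span ℂ (range chi) := by
  intro f hf
  have hf' : f.fn.support.Finite := hf
  have : f = ∑ v ∈ hf'.toFinset, f.fn v • chi v := by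
    apply fn_ext
    funext u
    have h3 : (∑ v ∈ hf'.toFinset, f.fn v • chi v).fn u =
        ∑ v ∈ hf'.toFinset, f.fn v * (Pi.single v (1 : ℂ) : ℕ × ℕ → ℂ) u := by
      have : (∑ v ∈ hf'.toFinset, f.fn v • chi v).fn u =
        ev u (∑ v ∈ hf'.toFinset, f.fn v • chi v) := rfl
      rw [this, map_sum]
      rfl
    rw [h3]
    by_cases hu : u ∈ hf'.toFinset
    · rw [Finset.sum_eq_single u]
      · rw [Pi.single_eq_same, mul_one]
      · intro v _ hv
        rw [Pi.single_eq_of_ne (Ne.symm hv), mul_zero]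
      · intro h; exact absurd hu h
    · rw [Finset.sum_eq_zero]
      · by_contra hne
        exact hu (hf'.mem_toFinset.2 hne)
      · intro v hv
        have : u ≠ v := by
          rintro rfl
          exact hu hv
        rw [Pi.single_eq_of_ne this, mul_zero]
  rw [this]
  exact Submodule.sum_mem _ fun v _ => Submodule.smul_mem _ _ (Submodule.subset_span ⟨v, rfl⟩)

lemma fs_appr (h1 : 1 / 2 < ‖lam‖) {f : LZ tree} (hf : f ∈ Fs tree) : f ∈ Appr lam := by
  have h := fs_le_span hf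
  clear hf
  induction h using Submodule.span_induction with
  | mem x hx =>
    obtain ⟨w, rfl⟩ := hx
    exact fun ε hε => approx_chi h1 w hε
  | zero => exact appr_zero
  | add x y _ _ hx hy => exact appr_add hx hy
  | smul c x _ hx => exact appr_smul c hx

instance sepLZ : TopologicalSpace.SeparableSpace (LZ tree) := by
  rw [← TopologicalSpace.isSeparable_univ_iff]
  have h3 : TopologicalSpace.IsSeparable (Submodule.span ℂ (range chi) : Set (LZ tree)) :=
    (countable_range chi).isSeparable.span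
  have h4 := h3.closure
  refine h4.mono ?_
  intro f _
  exact closure_mono fs_le_span (dense_Fs f)

lemma tendsto_zero (h2 : ‖lam‖ < 1) {f : LZ tree} (hf : f ∈ (Fs tree : Set (LZ tree))) :
    Tendsto (fun n : ℕ => (cop isComp lam ^ n) f) atTop (𝓝 0) := by
  have hf' : f.fn.support.Finite := hf
  obtain ⟨C, hC⟩ := (hf'.image fun v => ‖f.fn v‖).bddAbove
  have hC' : ∀ v, ‖f.fn v‖ ≤ max C 0 := by
    intro v
    by_cases hv : f.fn v = 0
    · rw [hv, norm_zero]; exact le_max_right _ _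
    · exact (hC ⟨v, hv, rfl⟩).trans (le_max_left _ _)
  apply squeeze_zero_norm (a := fun n => 2 * (‖lam‖ ^ n * max C 0))
  · intro n
    apply norm_le_two
    intro v
    rw [cop_pow_fn, norm_mul, norm_pow]
    exact mul_le_mul_of_nonneg_left (hC' _) (by positivity)
  · have h3 := tendsto_pow_atTop_nhds_zero_of_lt_one (norm_nonneg lam) h2
    have := (h3.mul_const (max C 0)).const_mul 2
    simpa using this

/-- `lam • C_φ` is hypercyclic for `1/2 < |lam| < 1` -/
theorem main_ex (h1 : 1 / 2 < ‖lam‖) (h2 : ‖lam‖ < 1) : ∃ f, IsHypVec tree phi lam f := by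
  obtain ⟨x, hx⟩ := criterion (cop isComp lam) (D := (Fs tree : Set (LZ tree)))
    (E := (Fs tree : Set (LZ tree))) dense_Fs dense_Fs
    (fun x hx => tendsto_zero h2 hx) (fun y hy => fs_appr h1 hy)
  exact ⟨x.fn, (hypVec_iff isComp lam x).2 hx⟩

end

end Pool.Agent.R884.Lip.Ex
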