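import Pool.Agent.R884.Lip.Defs

/-!
The little Lipschitz space as a Banach space.
-/

namespace Pool.Agent.R884.Lip

open Filter Topology Set

variable {T : Type*} (R : RTree T)

section basic

variable {R}

lemma IsLittle.bdd {f : T → ℂ} (hf : IsLittle R f) :
    BddAbove (range fun v => ‖f v - f (R.par v)‖) := by
  have h1 := hf 1 one_pos
  obtain ⟨C, hC⟩ := (h1.image fun v => ‖f v - f (R.par v)‖).bddAbove
  refine ⟨max C 1, ?_⟩
  rintro _ ⟨v, rfl⟩
  by_cases h : 1 ≤ ‖f v - f (R.par v)‖
  · exact (hC ⟨v, h, rfl⟩).trans (le_max_left _ _)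
  · exact (not_le.1 h).le.trans (le_max_right _ _)

lemma diff_le_nrm {f : T → ℂ} (hf : IsLittle R f) (v : T) : ‖f v - f (R.par v)‖ ≤ nrm R f :=
  (le_ciSup hf.bdd v).trans (le_max_right _ _)

lemma root_le_nrm (f : T → ℂ) : ‖f R.root‖ ≤ nrm R f := le_max_left _ _

lemma nrm_nonneg (f : T → ℂ) : 0 ≤ nrm R f := (norm_nonneg _).trans (root_le_nrm f)

lemma nrm_le {f : T → ℂ} {C : ℝ} (h0 : ‖f R.root‖ ≤ C) (h : ∀ v, ‖f v - f (R.par v)‖ ≤ C) :
    nrm R f ≤ C := by
  haveI : Nonempty T := ⟨R.root⟩
  exact max_le h0 (ciSup_le h)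

lemma IsLittle.add {f g : T → ℂ} (hf : IsLittle R f) (hg : IsLittle R g) :
    IsLittle R (f + g) := by
  intro ε hε
  refine ((hf (ε / 2) (by positivity)).union (hg (ε / 2) (by positivity))).subset ?_
  intro v hv
  by_contra hcon
  simp only [mem_union, mem_ofPred_eq, not_or, not_le] at hcon hv
  have h1 : (f + g) v - (f + g) (R.par v) = (f v - f (R.par v)) + (g v - g (R.par v)) := by
    simp only [Pi.add_apply]; ring
  rw [h1] at hv
  have := norm_add_le (f v - f (R.par v)) (g v - g (R.par v))
  linarith [hcon.1, hcon.2]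

lemma IsLittle.smul {f : T → ℂ} (hf : IsLittle R f) (c : ℂ) : IsLittle R (c • f) := by
  intro ε hε
  refine (hf (ε / (‖c‖ + 1)) (by positivity)).subset ?_
  intro v hv
  simp only [mem_ofPred_eq, Pi.smul_apply, smul_eq_mul] at hv ⊢
  rw [← mul_sub, norm_mul] at hv
  rw [div_le_iff₀ (by positivity)]
  have := norm_nonneg (f v - f (R.par v))
  nlinarith [norm_nonneg c]

lemma IsLittle.zero : IsLittle R (0 : T → ℂ) := by
  intro ε hε
  convert Set.finite_empty
  ext v
  simp [hε]

end basic

/-- the little Lipschitz functions as a submodule -/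
def L0 : Submodule ℂ (T → ℂ) where
  carrier := {f | IsLittle R f}
  add_mem' := fun hf hg => hf.add hg
  zero_mem' := IsLittle.zero
  smul_mem' := fun c _ hf => hf.smul c

/-- the little Lipschitz space as a type -/
def LZ : Type _ := L0 R

noncomputable instance : AddCommGroup (LZ R) := inferInstanceAs (AddCommGroup (L0 R))
noncomputable instance : Module ℂ (LZ R) := inferInstanceAs (Module ℂ (L0 R))

/-- the underlying function -/
def LZ.fn {R : RTree T} (f : LZ R) : T → ℂ := (f : L0 R).1

/-- constructor -/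
def LZ.mk {R : RTree T} (f : T → ℂ) (hf : IsLittle R f) : LZ R := (⟨f, hf⟩ : L0 R)

section
variable {R}

@[simp] lemma fn_mk (f : T → ℂ) (hf : IsLittle R f) : (LZ.mk f hf).fn = f := rfl
lemma fn_add (f g : LZ R) : (f + g).fn = f.fn + g.fn := rfl
lemma fn_sub (f g : LZ R) : (f - g).fn = f.fn - g.fn := rfl
lemma fn_neg (f : LZ R) : (-f).fn = -f.fn := rfl
lemma fn_zero : (0 : LZ R).fn = 0 := rfl
lemma fn_smul (c : ℂ) (f : LZ R) : (c • f).fn = c • f.fn := rfl
lemma fn_little (f : LZ R) : IsLittle R f.fn := f.2
lemma fn_ext {f g : LZ R} (h : f.fn = g.fn) : f = g := Subtype.ext h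

end

/-- depth -/
noncomputable def dep (v : T) : ℕ := sInf {n | R.par^[n] v = R.root}

section
variable {R}

lemma dep_spec (v : T) : R.par^[dep R v] v = R.root := Nat.sInf_mem (R.reach v)

lemma dep_le {v : T} {n : ℕ} (h : R.par^[n] v = R.root) : dep R v ≤ n := Nat.sInf_le h

lemma dep_root : dep R R.root = 0 := Nat.le_zero.1 (dep_le (n := 0) rfl)

lemma dep_eq_zero {v : T} (h : dep R v = 0) : v = R.root := by
  have := dep_spec (R := R) v
  rwa [h] at this

lemma dep_par {v : T} (h : v ≠ R.root) : dep R v = dep R (R.par v) + 1 := by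
  apply le_antisymm
  · apply dep_le
    rw [Function.iterate_succ_apply]
    exact dep_spec (R.par v)
  · have h1 : dep R v ≠ 0 := fun h0 => h (dep_eq_zero h0)
    obtain ⟨n, hn⟩ := Nat.exists_eq_succ_of_ne_zero h1
    have h2 := dep_spec (R := R) v
    rw [hn, Function.iterate_succ_apply] at h2
    have := dep_le h2
    omega

lemma root_le (f : LZ R) : ‖f.fn R.root‖ ≤ nrm R f.fn := root_le_nrm _

lemma apply_le (f : LZ R) (v : T) : ‖f.fn v‖ ≤ (dep R v + 1) * nrm R f.fn := by
  obtain ⟨n, hn⟩ : ∃ n, dep R v = n := ⟨_, rfl⟩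
  rw [hn]
  induction n generalizing v with
  | zero =>
    rw [dep_eq_zero hn]
    simpa using root_le f
  | succ n ih =>
    have hv : v ≠ R.root := by
      rintro rfl
      rw [dep_root] at hn
      omega
    have h1 := dep_par hv
    have h2 := ih (R.par v) (by omega)
    have h3 := diff_le_nrm (fn_little f) v
    have h4 : f.fn v = (f.fn v - f.fn (R.par v)) + f.fn (R.par v) := by ring
    calc ‖f.fn v‖ = ‖(f.fn v - f.fn (R.par v)) + f.fn (R.par v)‖ := by rw [← h4]
      _ ≤ ‖f.fn v - f.fn (R.par v)‖ + ‖f.fn (R.par v)‖ := norm_add_le _ _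
      _ ≤ nrm R f.fn + (n + 1) * nrm R f.fn := add_le_add h3 h2
      _ = ((n + 1 : ℕ) + 1) * nrm R f.fn := by push_cast; ring

end

/-- the norm as a group norm -/
noncomputable def gn : AddGroupNorm (LZ R) where
  toFun f := nrm R f.fn
  map_zero' := by
    apply le_antisymm _ (nrm_nonneg _)
    apply nrm_le <;> simp [fn_zero]
  add_le' f g := by
    apply nrm_le
    · rw [fn_add]
      exact (norm_add_le _ _).trans (add_le_add (root_le f) (root_le g))
    · intro v
      have h1 : (f + g).fn v - (f + g).fn (R.par v) =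
          (f.fn v - f.fn (R.par v)) + (g.fn v - g.fn (R.par v)) := by
        rw [fn_add]; simp only [Pi.add_apply]; ring
      rw [h1]
      exact (norm_add_le _ _).trans
        (add_le_add (diff_le_nrm (fn_little f) v) (diff_le_nrm (fn_little g) v))
  neg' f := by
    unfold nrm
    rw [fn_neg]
    simp only [Pi.neg_apply, norm_neg]
    congr 2
    funext v
    rw [← norm_neg]
    congr 1
    ring
  eq_zero_of_map_eq_zero' f hf := by
    apply fn_ext
    funext v
    have := apply_le f v
    have h0 : nrm R f.fn = 0 := hf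
    rw [h0, mul_zero] at this
    exact norm_le_zero_iff.1 this

noncomputable instance : NormedAddCommGroup (LZ R) := (gn R).toNormedAddCommGroup

section
variable {R}
lemma norm_eq (f : LZ R) : ‖f‖ = nrm R f.fn := rfl
end

noncomputable instance : NormedSpace ℂ (LZ R) where
  norm_smul_le c f := by
    rw [norm_eq, norm_eq]
    apply nrm_le
    · rw [fn_smul, Pi.smul_apply, smul_eq_mul, norm_mul]
      exact mul_le_mul_of_nonneg_left (root_le f) (norm_nonneg c)
    · intro v
      rw [fn_smul, Pi.smul_apply, Pi.smul_apply, ← smul_sub, norm_smul]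
      exact mul_le_mul_of_nonneg_left (diff_le_nrm (fn_little f) v) (norm_nonneg c)

section
variable {R}

lemma root_le' (f : LZ R) : ‖f.fn R.root‖ ≤ ‖f‖ := root_le f
lemma diff_le (f : LZ R) (v : T) : ‖f.fn v - f.fn (R.par v)‖ ≤ ‖f‖ := diff_le_nrm (fn_little f) v
lemma apply_le' (f : LZ R) (v : T) : ‖f.fn v‖ ≤ (dep R v + 1) * ‖f‖ := apply_le f v
lemma norm_le {f : LZ R} {C : ℝ} (h0 : ‖f.fn R.root‖ ≤ C)
    (h : ∀ v, ‖f.fn v - f.fn (R.par v)‖ ≤ C) : ‖f‖ ≤ C := nrm_le h0 h

/-- `‖f‖ ≤ 2 sup |f|` -/
lemma norm_le_two {f : LZ R} {C : ℝ} (h : ∀ v, ‖f.fn v‖ ≤ C) : ‖f‖ ≤ 2 * C := by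
  have hC : 0 ≤ C := (norm_nonneg _).trans (h R.root)
  apply norm_le
  · linarith [h R.root]
  · intro v
    have := norm_sub_le (f.fn v) (f.fn (R.par v))
    linarith [h v, h (R.par v)]

/-- functions vanishing at infinity are little Lipschitz -/
lemma little_of_c0 {f : T → ℂ} (hf : ∀ ε : ℝ, 0 < ε → {v | ε ≤ ‖f v‖}.Finite) :
    IsLittle R f := by
  intro ε hε
  have h1 := hf (ε / 2) (by positivity)
  have h2 : (⋃ u ∈ {v | ε / 2 ≤ ‖f v‖}, {v | R.par v = u}).Finite :=
    h1.biUnion fun u _ => R.fin u
  refine (h1.union h2).subset ?_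
  intro v hv
  by_contra hcon
  simp only [mem_union, mem_iUnion, mem_ofPred_eq, not_or, not_le, not_exists] at hcon hv
  obtain ⟨c1, c2⟩ := hcon
  have c3 : ‖f (R.par v)‖ < ε / 2 := by
    by_contra h
    exact c2 (R.par v) (not_lt.1 h) rfl
  have := norm_sub_le (f v) (f (R.par v))
  linarith

lemma little_of_finite {f : T → ℂ} (hf : f.support.Finite) : IsLittle R f := by
  apply little_of_c0
  intro ε hε
  refine hf.subset ?_
  intro v hv
  simp only [mem_ofPred_eq] at hv
  rw [Function.mem_support]
  intro h0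
  rw [h0, norm_zero] at hv
  linarith

end

instance : CompleteSpace (LZ R) := by
  apply Metric.complete_of_cauchySeq_tendsto
  intro s hs
  have hev : ∀ v, CauchySeq fun n => (s n).fn v := by
    intro v
    rw [Metric.cauchySeq_iff] at hs ⊢
    intro ε hε
    obtain ⟨N, hN⟩ := hs (ε / (dep R v + 1)) (by positivity)
    refine ⟨N, fun m hm n hn => ?_⟩
    have h1 := apply_le' (s m - s n) v
    have h2 := hN m hm n hn
    rw [dist_eq_norm] at h2 ⊢
    rw [fn_sub, Pi.sub_apply] at h1
    rw [lt_div_iff₀ (by positivity)] at h2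
    linarith [h1, mul_comm (‖s m - s n‖) ((dep R v : ℝ) + 1)]
  choose f hf using fun v => cauchySeq_tendsto_of_complete (hev v)
  have hdiff : ∀ n v, Tendsto (fun m => ‖(s n - s m).fn v - (s n - s m).fn (R.par v)‖) atTop
      (𝓝 ‖((s n).fn v - f v) - ((s n).fn (R.par v) - f (R.par v))‖) := by
    intro n v
    simp only [fn_sub, Pi.sub_apply]
    exact ((tendsto_const_nhds.sub (hf v)).sub (tendsto_const_nhds.sub (hf (R.par v)))).norm
  have hroot : ∀ n, Tendsto (fun m => ‖(s n - s m).fn R.root‖) atTop
      (𝓝 ‖(s n).fn R.root - f R.root‖) := by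
    intro n
    simp only [fn_sub, Pi.sub_apply]
    exact (tendsto_const_nhds.sub (hf R.root)).norm
  have key : ∀ ε > 0, ∃ N, ∀ n ≥ N,
      (∀ v, ‖((s n).fn v - f v) - ((s n).fn (R.par v) - f (R.par v))‖ ≤ ε) ∧
      ‖(s n).fn R.root - f R.root‖ ≤ ε := by
    intro ε hε
    obtain ⟨N, hN⟩ := Metric.cauchySeq_iff.1 hs ε hε
    refine ⟨N, fun n hn => ⟨fun v => ?_, ?_⟩⟩
    · refine le_of_tendsto (hdiff n v) ?_
      filter_upwards [eventually_ge_atTop N] with m hm
      have := hN n hn m hm
      rw [dist_eq_norm] at this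
      exact (diff_le _ v).trans this.le
    · refine le_of_tendsto (hroot n) ?_
      filter_upwards [eventually_ge_atTop N] with m hm
      have := hN n hn m hm
      rw [dist_eq_norm] at this
      exact (root_le' _).trans this.le
  have hfl : IsLittle R f := by
    intro ε hε
    obtain ⟨N, hN⟩ := key (ε / 2) (by positivity)
    refine (fn_little (s N) (ε / 2) (by positivity)).subset ?_
    intro v hv
    simp only [mem_ofPred_eq] at hv ⊢
    have h1 := (hN N le_rfl).1 v
    have h2 : f v - f (R.par v) = ((s N).fn v - (s N).fn (R.par v)) -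
        (((s N).fn v - f v) - ((s N).fn (R.par v) - f (R.par v))) := by ring
    rw [h2] at hv
    have := norm_sub_le ((s N).fn v - (s N).fn (R.par v))
      (((s N).fn v - f v) - ((s N).fn (R.par v) - f (R.par v)))
    linarith
  refine ⟨LZ.mk f hfl, ?_⟩
  rw [Metric.tendsto_atTop]
  intro ε hε
  obtain ⟨N, hN⟩ := key (ε / 2) (by positivity)
  refine ⟨N, fun n hn => ?_⟩
  rw [dist_eq_norm]
  have : ‖s n - LZ.mk f hfl‖ ≤ ε / 2 := by
    apply norm_le
    · rw [fn_sub, Pi.sub_apply, fn_mk]
      exact (hN n hn).2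
    · intro v
      rw [fn_sub, Pi.sub_apply, Pi.sub_apply, fn_mk]
      exact (hN n hn).1 v
  linarith

section dense
variable {R}

lemma finite_dep (n : ℕ) : {v | dep R v ≤ n}.Finite := by
  induction n with
  | zero =>
    refine (Set.finite_singleton R.root).subset ?_
    intro v hv
    exact dep_eq_zero (Nat.le_zero.1 hv)
  | succ n ih =>
    have h2 : (⋃ u ∈ {v | dep R v ≤ n}, {v | R.par v = u}).Finite :=
      ih.biUnion fun u _ => R.fin u
    refine ((Set.finite_singleton R.root).union h2).subset ?_
    intro v hv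
    by_cases h : v = R.root
    · exact Or.inl h
    · right
      have := dep_par h
      simp only [mem_ofPred_eq] at hv
      exact mem_iUnion₂.2 ⟨R.par v, by simp only [mem_ofPred_eq]; omega, rfl⟩

/-- `u` is an ancestor of `v` or equal to `v` -/
def Anc (R : RTree T) (u v : T) : Prop := ∃ n : ℕ, R.par^[n] v = u

lemma anc_self (u : T) : Anc R u u := ⟨0, rfl⟩

lemma anc_of_par {u v : T} (h : Anc R u (R.par v)) : Anc R u v := by
  obtain ⟨n, hn⟩ := h
  exact ⟨n + 1, by rw [Function.iterate_succ_apply]; exact hn⟩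

lemma anc_par {u v : T} (h : Anc R u v) (hne : v ≠ u) : Anc R u (R.par v) := by
  obtain ⟨n, hn⟩ := h
  cases n with
  | zero => exact absurd hn hne
  | succ n => exact ⟨n, by rw [Function.iterate_succ_apply] at hn; exact hn⟩

lemma dep_anc {u v : T} (h : Anc R u v) : dep R u ≤ dep R v := by
  obtain ⟨n, hn⟩ := h
  induction n generalizing v with
  | zero => rw [← hn]; rfl
  | succ n ih =>
    rw [Function.iterate_succ_apply] at hn
    have h1 := ih hn
    by_cases hv : v = R.root
    · rw [hv, R.par_root] at h1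
      rw [hv]; exact h1
    · have := dep_par hv
      omega

lemma not_anc_par {u : T} (hu : u ≠ R.root) : ¬ Anc R u (R.par u) := by
  intro h
  have h1 := dep_anc h
  have := dep_par hu
  omega

open Classical in
/-- cut-off of the indicator of the subtree at `u` -/
noncomputable def cut (R : RTree T) (u : T) (K : ℕ) : T → ℂ := fun v =>
  if Anc R u v then ((max 0 (1 - ((dep R v : ℝ) - dep R u) / (K + 1)) : ℝ) : ℂ) else 0

open Classical in
/-- the indicator of the subtree at `u` -/
noncomputable def sub (R : RTree T) (u : T) : T → ℂ := fun v => if Anc R u v then 1 else 0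

lemma sub_diff {u v : T} (hv : v ≠ u) : sub R u v - sub R u (R.par v) = 0 := by
  unfold sub
  by_cases h : Anc R u v
  · rw [if_pos h, if_pos (anc_par h hv), sub_self]
  · rw [if_neg h, if_neg (fun h' => h (anc_of_par h')), sub_self]

lemma sub_little (u : T) : IsLittle R (sub R u) := by
  intro ε hε
  refine (Set.finite_singleton u).subset ?_
  intro v hv
  by_contra hne
  rw [mem_ofPred_eq, sub_diff hne, norm_zero] at hv
  linarith

lemma cut_finite (u : T) (K : ℕ) : (cut R u K).support.Finite := by
  refine (finite_dep (R := R) (dep R u + K)).subset ?_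
  intro v hv
  rw [Function.mem_support] at hv
  simp only [mem_ofPred_eq]
  by_contra hcon
  apply hv
  unfold cut
  split_ifs with h
  · have h1 : (dep R u : ℝ) + (K + 1) ≤ dep R v := by
      have : dep R u + (K + 1) ≤ dep R v := by omega
      exact_mod_cast this
    have h2 : (1 : ℝ) - ((dep R v : ℝ) - dep R u) / (K + 1) ≤ 0 := by
      rw [sub_nonpos, le_div_iff₀ (by positivity)]
      linarith
    rw [max_eq_left h2, Complex.ofReal_zero]
  · rfl

/-- the cut-off approximates the indicator of the subtree -/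
lemma sub_cut (u : T) (K : ℕ) :
    ‖LZ.mk (sub R u) (sub_little u) - LZ.mk (cut R u K) (little_of_finite (cut_finite u K))‖
      ≤ 1 / (K + 1) := by
  have hK : (0 : ℝ) < K + 1 := by positivity
  have hval : ∀ v, Anc R u v → sub R u v - cut R u K v =
      ((min 1 (((dep R v : ℝ) - dep R u) / (K + 1)) : ℝ) : ℂ) := by
    intro v hv
    unfold sub cut
    rw [if_pos hv, if_pos hv, ← Complex.ofReal_one, ← Complex.ofReal_sub]
    congr 1
    rcases le_total (((dep R v : ℝ) - dep R u) / (K + 1)) 1 with h | h
    · rw [min_eq_right h, max_eq_right (by linarith)]; ring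
    · rw [min_eq_left h, max_eq_left (by linarith)]; ring
  have hval0 : ∀ v, ¬ Anc R u v → sub R u v - cut R u K v = 0 := by
    intro v hv
    unfold sub cut
    rw [if_neg hv, if_neg hv, sub_zero]
  have hself : sub R u u - cut R u K u = 0 := by
    rw [hval u (anc_self u)]; simp
  have hdiff : ∀ v, ‖(sub R u v - cut R u K v) - (sub R u (R.par v) - cut R u K (R.par v))‖
      ≤ 1 / (K + 1) := by
    intro v
    by_cases hv : v = u
    · rw [hv, hself, zero_sub, norm_neg]
      by_cases hu : u = R.root
      · rw [hu, R.par_root, ← hu, hself, norm_zero]; positivity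
      · rw [hval0 _ (not_anc_par hu), norm_zero]; positivity
    · by_cases ha : Anc R u v
      · by_cases hr : v = R.root
        · rw [hr, R.par_root, sub_self, norm_zero]; positivity
        rw [hval v ha, hval _ (anc_par ha hv), ← Complex.ofReal_sub, Complex.norm_real,
          Real.norm_eq_abs]
        have h1 : (dep R v : ℝ) = dep R (R.par v) + 1 := by exact_mod_cast dep_par hr
        have h2 := abs_min_sub_min_le_max (1 : ℝ) (((dep R v : ℝ) - dep R u) / (K + 1)) 1
          (((dep R (R.par v) : ℝ) - dep R u) / (K + 1))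
        refine h2.trans ?_
        rw [sub_self, abs_zero, ← sub_div]
        have h3 : (dep R v : ℝ) - dep R u - ((dep R (R.par v) : ℝ) - dep R u) = 1 := by
          rw [h1]; ring
        rw [h3, abs_of_nonneg (by positivity)]
        exact max_le (by positivity) le_rfl
      · rw [hval0 v ha, hval0 _ (fun h => ha (anc_of_par h)), sub_self, norm_zero]; positivity
  apply norm_le
  · rw [fn_sub, Pi.sub_apply, fn_mk, fn_mk]
    by_cases h : Anc R u R.root
    · have h1 := dep_anc h
      rw [dep_root] at h1
      have h2 : u = R.root := dep_eq_zero (Nat.le_zero.1 h1)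
      rw [← h2, hself, norm_zero]; positivity
    · rw [hval0 _ h, norm_zero]; positivity
  · intro v
    rw [fn_sub, Pi.sub_apply, Pi.sub_apply, fn_mk, fn_mk]
    exact hdiff v

/-- finitely supported elements -/
def Fs (R : RTree T) : Submodule ℂ (LZ R) where
  carrier := {f | f.fn.support.Finite}
  add_mem' := by
    intro f g hf hg
    simp only [mem_ofPred_eq] at hf hg ⊢
    refine (hf.union hg).subset ?_
    rw [fn_add]
    exact Function.support_add _ _
  zero_mem' := by simp [fn_zero]
  smul_mem' := by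
    intro c f hf
    simp only [mem_ofPred_eq] at hf ⊢
    refine hf.subset ?_
    rw [fn_smul]
    exact Function.support_const_smul_subset _ _

lemma sub_mem_closure (u : T) : LZ.mk (sub R u) (sub_little u) ∈ (Fs R).topologicalClosure := by
  rw [← SetLike.mem_coe, Submodule.topologicalClosure_coe, Metric.mem_closure_iff]
  intro ε hε
  obtain ⟨K, hK⟩ := exists_nat_one_div_lt hε
  refine ⟨LZ.mk (cut R u K) (little_of_finite (cut_finite u K)), cut_finite u K, ?_⟩
  rw [dist_eq_norm]
  exact (sub_cut u K).trans_lt hK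

/-- evaluation as a linear map -/
def ev (v : T) : LZ R →ₗ[ℂ] ℂ where
  toFun f := f.fn v
  map_add' _ _ := rfl
  map_smul' _ _ := rfl

/-- finitely supported functions are dense -/
theorem dense_Fs : Dense (Fs R : Set (LZ R)) := by
  classical
  intro f
  rw [← Submodule.topologicalClosure_coe]
  have hcl : IsClosed ((Fs R).topologicalClosure : Set (LZ R)) :=
    (Fs R).isClosed_topologicalClosure
  rw [← hcl.closure_eq, Metric.mem_closure_iff]
  intro ε hε
  have hfin := fn_little f (ε / 2) (by positivity)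
  let B : Finset T := hfin.toFinset ∪ {R.root}
  let D : T → ℂ := fun u => if u = R.root then f.fn R.root else f.fn u - f.fn (R.par u)
  refine ⟨∑ u ∈ B, D u • LZ.mk (sub R u) (sub_little u), ?_, ?_⟩
  · exact Submodule.sum_mem _ fun u _ => Submodule.smul_mem _ _ (sub_mem_closure u)
  · set h : LZ R := ∑ u ∈ B, D u • LZ.mk (sub R u) (sub_little u) with hh
    have hev : ∀ v, h.fn v = ∑ u ∈ B, D u * sub R u v := by
      intro v
      have : h.fn v = ev v h := rfl
      rw [this, hh, map_sum]
      rfl
    have hroot : h.fn R.root = f.fn R.root := by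
      rw [hev, Finset.sum_eq_single R.root]
      · simp [D, sub, anc_self]
      · intro u _ hu
        have : ¬ Anc R u R.root := by
          intro ha
          have h1 := dep_anc ha
          rw [dep_root] at h1
          exact hu (dep_eq_zero (Nat.le_zero.1 h1))
        simp [sub, this]
      · intro hn
        exact absurd (by simp [B]) hn
    have hdiff : ∀ v, v ≠ R.root → h.fn v - h.fn (R.par v) = if v ∈ B then D v else 0 := by
      intro v hv
      rw [hev, hev, ← Finset.sum_sub_distrib]
      have h1 : ∀ u ∈ B, D u * sub R u v - D u * sub R u (R.par v) = if u = v then D v else 0 := by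
        intro u _
        rw [← mul_sub]
        by_cases huv : u = v
        · subst huv
          rw [if_pos rfl]
          unfold sub
          rw [if_pos (anc_self _), if_neg (not_anc_par hv), sub_zero, mul_one]
        · rw [sub_diff (fun h => huv h.symm), mul_zero, if_neg huv]
      rw [Finset.sum_congr rfl h1, Finset.sum_ite_eq']
    rw [dist_eq_norm]
    have : ‖f - h‖ ≤ ε / 2 := by
      apply norm_le
      · rw [fn_sub, Pi.sub_apply, hroot, sub_self, norm_zero]; positivity
      · intro v
        rw [fn_sub, Pi.sub_apply, Pi.sub_apply]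
        by_cases hv : v = R.root
        · rw [hv, R.par_root, sub_self, norm_zero]; positivity
        · have e : f.fn v - h.fn v - (f.fn (R.par v) - h.fn (R.par v)) =
            (f.fn v - f.fn (R.par v)) - (h.fn v - h.fn (R.par v)) := by ring
          rw [e, hdiff v hv]
          split_ifs with hB
          · simp only [D, if_neg hv, sub_self, norm_zero]; positivity
          · rw [sub_zero]
            have : v ∉ hfin.toFinset := fun h => hB (Finset.mem_union_left _ h)
            rw [Set.Finite.mem_toFinset, mem_ofPred_eq, not_le] at this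
            exact this.le
    linarith

end dense

section op
variable {R}

/-- the weighted composition operator -/
noncomputable def cop {φ : T → T} (hφ : IsCompOp R φ) (lam : ℂ) : LZ R →L[ℂ] LZ R :=
  LinearMap.mkContinuousOfExistsBound
    { toFun := fun f => LZ.mk (lam • (f.fn ∘ φ)) ((hφ.1 _ (fn_little f)).smul lam)
      map_add' := fun f g => by
        apply fn_ext
        funext v
        simp only [fn_mk, fn_add, Pi.smul_apply, Function.comp_apply, Pi.add_apply, smul_eq_mul]
        ring
      map_smul' := fun c f => by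
        apply fn_ext
        funext v
        simp only [fn_mk, fn_smul, Pi.smul_apply, Function.comp_apply, smul_eq_mul,
          RingHom.id_apply]
        ring }
    (by
      obtain ⟨C, hC⟩ := hφ.2
      refine ⟨‖lam‖ * C, fun f => ?_⟩
      have h1 : (LZ.mk (lam • (f.fn ∘ φ)) ((hφ.1 _ (fn_little f)).smul lam) : LZ R) =
          lam • LZ.mk (f.fn ∘ φ) (hφ.1 _ (fn_little f)) := rfl
      change ‖(LZ.mk (lam • (f.fn ∘ φ)) ((hφ.1 _ (fn_little f)).smul lam) : LZ R)‖ ≤ _
      rw [h1, norm_smul, mul_assoc]
      exact mul_le_mul_of_nonneg_left (hC _ (fn_little f)) (norm_nonneg _))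

lemma cop_fn {φ : T → T} (hφ : IsCompOp R φ) (lam : ℂ) (f : LZ R) (v : T) :
    (cop hφ lam f).fn v = lam * f.fn (φ v) := rfl

lemma cop_pow_fn {φ : T → T} (hφ : IsCompOp R φ) (lam : ℂ) (n : ℕ) (f : LZ R) (v : T) :
    ((cop hφ lam ^ n) f).fn v = lam ^ n * f.fn (φ^[n] v) := by
  induction n generalizing v with
  | zero => simp
  | succ n ih =>
    rw [pow_succ', ContinuousLinearMap.mul_apply, cop_fn, ih, Function.iterate_succ_apply]
    ring

lemma hypVec_iff {φ : T → T} (hφ : IsCompOp R φ) (lam : ℂ) (f : LZ R) :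
    IsHypVec R φ lam f.fn ↔ Dense (range fun n : ℕ => (cop hφ lam ^ n) f) := by
  constructor
  · rintro ⟨_, h⟩ g
    rw [Metric.mem_closure_iff]
    intro ε hε
    obtain ⟨n, hn⟩ := h g.fn (fn_little g) ε hε
    refine ⟨_, ⟨n, rfl⟩, ?_⟩
    rw [dist_comm, dist_eq_norm, norm_eq]
    convert hn using 2
    funext v
    rw [fn_sub, Pi.sub_apply, cop_pow_fn]
  · intro h
    refine ⟨fn_little f, fun g hg ε hε => ?_⟩
    obtain ⟨_, ⟨n, rfl⟩, hn⟩ := Metric.mem_closure_iff.1 (h (LZ.mk g hg)) ε hε
    refine ⟨n, ?_⟩
    rw [dist_comm, dist_eq_norm, norm_eq] at hn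
    convert hn using 2
    funext v
    rw [fn_sub, Pi.sub_apply, cop_pow_fn, fn_mk]

end op

end Pool.Agent.R884.Lip
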