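import Pool.Agent.R884.Lip.Space
import Pool.Agent.R884.Lip.Abs

/-!
If `|lam| ≤ 1` and `lam • C_φ` is hypercyclic on the little Lipschitz space of a rooted tree, then
it has a hypercyclic subspace.
-/

namespace Pool.Agent.R884.Lip

open Filter Topology Set
open scoped ZeroAtInfty ENNReal

variable {T : Type*} {R : RTree T}

instance : Nontrivial (LZ R) := by
  refine ⟨⟨LZ.mk (fun _ => 1) ?_, 0, ?_⟩⟩
  · intro ε hε
    convert Set.finite_empty
    ext v
    simp [hε]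
  · intro h
    have := congrArg (fun f : LZ R => f.fn R.root) h
    simp [fn_zero] at this

lemma orbit_le {φ : T → T} (hφ : IsCompOp R φ) {lam : ℂ} (hlam : ‖lam‖ ≤ 1) {f : LZ R} {C : ℝ}
    (hC : ∀ v, ‖f.fn v‖ ≤ C) (n : ℕ) : ‖(cop hφ lam ^ n) f‖ ≤ 2 * C := by
  apply norm_le_two
  intro v
  rw [cop_pow_fn, norm_mul, norm_pow]
  have h1 : ‖lam‖ ^ n ≤ 1 := pow_le_one₀ (norm_nonneg _) hlam
  have h2 := hC (φ^[n] v)
  have h3 := norm_nonneg (f.fn (φ^[n] v))
  calc ‖lam‖ ^ n * ‖f.fn (φ^[n] v)‖ ≤ 1 * ‖f.fn (φ^[n] v)‖ :=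
        mul_le_mul_of_nonneg_right h1 h3
    _ ≤ C := by linarith

lemma bdd_orbit {φ : T → T} (hφ : IsCompOp R φ) {lam : ℂ} (hlam : ‖lam‖ ≤ 1) {f : LZ R}
    (hf : f ∈ (Fs R : Set (LZ R))) : ∃ C : ℝ, ∀ n : ℕ, ‖(cop hφ lam ^ n) f‖ ≤ C := by
  have hf' : f.fn.support.Finite := hf
  obtain ⟨C, hC⟩ := (hf'.image fun v => ‖f.fn v‖).bddAbove
  refine ⟨2 * max C 0, orbit_le hφ hlam fun v => ?_⟩
  by_cases hv : f.fn v = 0
  · rw [hv, norm_zero]; exact le_max_right _ _
  · exact (hC ⟨v, hv, rfl⟩).trans (le_max_left _ _)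

/-- a ray starting at the root -/
lemma exists_ray (R : RTree T) : ∃ w : ℕ → T, ∀ k, dep R (w k) = k ∧ R.par (w (k + 1)) = w k ∧
    w (k + 1) ≠ R.root := by
  choose ch hch1 hch2 using R.child
  let w : ℕ → T := fun k => Nat.rec R.root (fun _ v => ch v) k
  have h1 : ∀ k, R.par (w (k + 1)) = w k := fun k => hch2 (w k)
  have h2 : ∀ k, w (k + 1) ≠ R.root := fun k => hch1 (w k)
  refine ⟨w, fun k => ⟨?_, h1 k, h2 k⟩⟩
  induction k with
  | zero => exact dep_root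
  | succ k ih => rw [dep_par (h2 k), h1 k, ih]

/-- pairwise non-adjacent vertices -/
lemma exists_seq (R : RTree T) : ∃ u : ℕ → T, Function.Injective u ∧ (∀ l, u l ≠ R.root) ∧
    ∀ l k, R.par (u l) ≠ u k := by
  obtain ⟨w, hw⟩ := exists_ray R
  refine ⟨fun l => w (2 * l + 1), ?_, fun l => (hw (2 * l)).2.2, ?_⟩
  · intro a b hab
    have h1 := congrArg (dep R) hab
    simp only [(hw _).1] at h1
    omega
  · intro l k h
    rw [(hw (2 * l)).2.1] at h
    have h1 := congrArg (dep R) h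
    simp only [(hw _).1] at h1
    omega

section
variable {u : ℕ → T} (hu : Function.Injective u)
include hu

lemma ext_little {a : ℕ → ℂ} (ha : ∀ ε : ℝ, 0 < ε → {l | ε ≤ ‖a l‖}.Finite) :
    IsLittle R (Function.extend u a 0) := by
  apply little_of_c0
  intro ε hε
  refine ((ha ε hε).image u).subset ?_
  intro v hv
  simp only [mem_ofPred_eq] at hv
  by_cases h : ∃ l, u l = v
  · obtain ⟨l, rfl⟩ := h
    rw [hu.extend_apply] at hv
    exact ⟨l, hv, rfl⟩
  · rw [Function.extend_apply' _ _ _ h, Pi.zero_apply, norm_zero] at hv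
    linarith

omit hu in
lemma c0_finite (a : C₀(ℕ, ℂ)) : ∀ ε : ℝ, 0 < ε → {l | ε ≤ ‖a l‖}.Finite := by
  intro ε hε
  have h := a.zero_at_infty'
  have h2 : ∀ᶠ l in cocompact ℕ, ‖a l‖ < ε := by
    have h3 : Tendsto (fun l => ‖a l‖) (cocompact ℕ) (𝓝 0) := by
      have := h.norm
      rwa [norm_zero] at this
    exact h3.eventually (gt_mem_nhds hε)
  rw [cocompact_eq_cofinite] at h2
  have h4 := h2
  rw [Filter.eventually_cofinite] at h4
  simpa using h4

/-- the embedding of `c₀` -/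
noncomputable def Fa (R : RTree T) (a : C₀(ℕ, ℂ)) : LZ R :=
  LZ.mk (Function.extend u a 0) (ext_little hu (c0_finite a))

omit hu in
lemma single_finite (l : ℕ) : ∀ ε : ℝ, 0 < ε →
    {k | ε ≤ ‖(Pi.single l (1 : ℂ) : ℕ → ℂ) k‖}.Finite := by
  intro ε hε
  refine (Set.finite_singleton l).subset ?_
  intro k hk
  by_contra hne
  simp only [mem_ofPred_eq] at hk
  rw [Pi.single_eq_of_ne hne, norm_zero] at hk
  linarith

/-- the indicator of the vertex `u l` -/
noncomputable def chi (R : RTree T) (l : ℕ) : LZ R :=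
  LZ.mk (Function.extend u (Pi.single l (1 : ℂ)) 0) (ext_little hu (single_finite l))

lemma Fa_apply (a : C₀(ℕ, ℂ)) (l : ℕ) : (Fa hu R a).fn (u l) = a l := hu.extend_apply _ _ _

lemma Fa_apply' (a : C₀(ℕ, ℂ)) {v : T} (h : ¬ ∃ l, u l = v) : (Fa hu R a).fn v = 0 :=
  Function.extend_apply' _ _ _ h

lemma chi_apply (l k : ℕ) : (chi hu R l).fn (u k) = (Pi.single l (1 : ℂ) : ℕ → ℂ) k :=
  hu.extend_apply _ _ _

lemma chi_apply' (l : ℕ) {v : T} (h : ¬ ∃ l, u l = v) : (chi hu R l).fn v = 0 :=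
  Function.extend_apply' _ _ _ h

lemma Fa_add (a b : C₀(ℕ, ℂ)) : Fa hu R (a + b) = Fa hu R a + Fa hu R b := by
  apply fn_ext
  funext v
  rw [fn_add, Pi.add_apply]
  by_cases h : ∃ l, u l = v
  · obtain ⟨l, rfl⟩ := h
    rw [Fa_apply hu, Fa_apply hu, Fa_apply hu]; rfl
  · rw [Fa_apply' hu _ h, Fa_apply' hu _ h, Fa_apply' hu _ h, add_zero]

lemma Fa_smul (c : ℂ) (a : C₀(ℕ, ℂ)) : Fa hu R (c • a) = c • Fa hu R a := by
  apply fn_ext
  funext v
  rw [fn_smul, Pi.smul_apply]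
  by_cases h : ∃ l, u l = v
  · obtain ⟨l, rfl⟩ := h
    rw [Fa_apply hu, Fa_apply hu]; rfl
  · rw [Fa_apply' hu _ h, Fa_apply' hu _ h, smul_zero]

omit hu in
lemma c0_le (a : C₀(ℕ, ℂ)) (l : ℕ) : ‖a l‖ ≤ ‖a‖ := a.toBCF.norm_coe_le_norm l

omit hu in
lemma c0_norm_le {a : C₀(ℕ, ℂ)} {C : ℝ} (hC : 0 ≤ C) (h : ∀ l, ‖a l‖ ≤ C) : ‖a‖ ≤ C :=
  (BoundedContinuousFunction.norm_le (f := a.toBCF) hC).2 h

lemma Fa_norm_le (a : C₀(ℕ, ℂ)) : ‖Fa hu R a‖ ≤ 2 * ‖a‖ := by
  apply norm_le_two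
  intro v
  by_cases h : ∃ l, u l = v
  · obtain ⟨l, rfl⟩ := h
    rw [Fa_apply hu]; exact c0_le a l
  · rw [Fa_apply' hu _ h, norm_zero]; exact norm_nonneg _

lemma le_Fa_norm (hr : ∀ l k, R.par (u l) ≠ u k) (a : C₀(ℕ, ℂ)) : ‖a‖ ≤ ‖Fa hu R a‖ := by
  apply c0_norm_le (norm_nonneg _)
  intro l
  have h1 := diff_le (Fa hu R a) (u l)
  have h2 : ¬ ∃ k, u k = R.par (u l) := by
    rintro ⟨k, hk⟩
    exact hr l k hk.symm
  rwa [Fa_apply hu, Fa_apply' hu _ h2, sub_zero] at h1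

/-- the tail of `Fa a` -/
lemma tail_le (a : C₀(ℕ, ℂ)) {L : ℕ} {c : ℝ} (hc : 0 ≤ c) (h : ∀ k, L < k → ‖a k‖ ≤ c) (v : T) :
    ‖(Fa hu R a - ∑ l ∈ Finset.range (L + 1), a l • chi hu R l).fn v‖ ≤ c := by
  have hev : (Fa hu R a - ∑ l ∈ Finset.range (L + 1), a l • chi hu R l).fn v =
      (Fa hu R a).fn v - ∑ l ∈ Finset.range (L + 1), a l * (chi hu R l).fn v := by
    have : (Fa hu R a - ∑ l ∈ Finset.range (L + 1), a l • chi hu R l).fn v =
      ev v (Fa hu R a - ∑ l ∈ Finset.range (L + 1), a l • chi hu R l) := rfl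
    rw [this, map_sub, map_sum]
    rfl
  rw [hev]
  by_cases hv : ∃ l, u l = v
  · obtain ⟨k, rfl⟩ := hv
    have e1 : ∑ l ∈ Finset.range (L + 1), a l * (chi hu R l).fn (u k) =
        if k ∈ Finset.range (L + 1) then a k else 0 := by
      rw [← Finset.sum_ite_eq (Finset.range (L + 1)) k (fun l => a l)]
      apply Finset.sum_congr rfl
      intro l _
      rw [chi_apply hu]
      by_cases hkl : k = l
      · rw [if_pos hkl, hkl, Pi.single_eq_same, mul_one]
      · rw [if_neg hkl, Pi.single_eq_of_ne hkl, mul_zero]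
    rw [e1, Fa_apply hu]
    split_ifs with hk
    · rw [sub_self, norm_zero]; exact hc
    · rw [sub_zero]
      apply h
      simp only [Finset.mem_range, not_lt] at hk
      omega
  · rw [Fa_apply' hu _ hv, Finset.sum_eq_zero, sub_zero, norm_zero]
    · exact hc
    · intro l _
      rw [chi_apply' hu _ hv, mul_zero]

end

/-- summable perturbations -/
noncomputable abbrev Zs (R : RTree T) := lp (fun _ : ℕ => LZ R) 1

lemma Zs_hasSum (ζ : Zs R) : HasSum (fun l => ‖ζ l‖) ‖ζ‖ := by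
  have h := lp.hasSum_norm (by norm_num : 0 < (1 : ℝ≥0∞).toReal) ζ
  simpa using h

lemma Zs_summable (ζ : Zs R) (a : C₀(ℕ, ℂ)) : Summable fun l => a l • ζ l := by
  apply Summable.of_norm_bounded ((Zs_hasSum ζ).summable.mul_left ‖a‖)
  intro l
  rw [norm_smul]
  exact mul_le_mul_of_nonneg_right (c0_le a l) (norm_nonneg _)

lemma Zs_tsum_le (ζ : Zs R) (a : C₀(ℕ, ℂ)) : ‖∑' l, a l • ζ l‖ ≤ ‖a‖ * ‖ζ‖ := by
  apply tsum_of_norm_bounded ((Zs_hasSum ζ).mul_left ‖a‖)
  intro l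
  rw [norm_smul]
  exact mul_le_mul_of_nonneg_right (c0_le a l) (norm_nonneg _)

section main

variable {φ : T → T} (hφ : IsCompOp R φ) (lam : ℂ) {u : ℕ → T} (hu : Function.Injective u)
include hφ hu

/-- finitely supported good perturbations -/
def Good (x0 : LZ R) (r j m L n : ℕ) (ζ : Zs R) : Prop :=
  (∀ l, L < l → ζ l = 0) ∧
  ‖(cop hφ lam ^ n) (chi hu R r + ζ r) - (cop hφ lam ^ j) x0‖ < 1 / (m + 1) ∧
  ∀ l ∈ Finset.range (L + 1), l ≠ r →
    ‖(cop hφ lam ^ n) (chi hu R l + ζ l)‖ < 1 / ((m + 1) * (L + 1))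

/-- the open dense sets -/
def Op (x0 : LZ R) (r j m : ℕ) : Set (Zs R) :=
  {ζ | ∃ L n : ℕ, m ≤ L ∧ r ≤ L ∧ ∃ η : Zs R, Good hφ lam hu x0 r j m L n η ∧
    ‖ζ - η‖ * (‖cop hφ lam ^ n‖ + 1) < 1 / (m + 1)}

lemma Op_open (x0 : LZ R) (r j m : ℕ) : IsOpen (Op hφ lam hu x0 r j m) := by
  have : Op hφ lam hu x0 r j m = ⋃ L : ℕ, ⋃ n : ℕ, ⋃ _ : m ≤ L, ⋃ _ : r ≤ L, ⋃ η : Zs R,
      ⋃ _ : Good hφ lam hu x0 r j m L n η,
      {ζ | ‖ζ - η‖ * (‖cop hφ lam ^ n‖ + 1) < 1 / (m + 1)} := by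
    ext ζ
    simp only [Op, mem_ofPred_eq, mem_iUnion, exists_prop]
  rw [this]
  refine isOpen_iUnion fun L => isOpen_iUnion fun n => isOpen_iUnion fun _ => isOpen_iUnion fun _ =>
    isOpen_iUnion fun η => isOpen_iUnion fun _ => ?_
  exact isOpen_lt (((continuous_id.sub continuous_const).norm).mul continuous_const)
    continuous_const

lemma Op_dense (hlam : ‖lam‖ ≤ 1) {x0 : LZ R}
    (hx0 : Dense (range fun n : ℕ => (cop hφ lam ^ n) x0)) (r j m : ℕ) :
    Dense (Op hφ lam hu x0 r j m) := by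
  intro ζ
  rw [Metric.mem_closure_iff]
  intro ε hε
  -- truncate
  have hs : Tendsto (fun N => ∑ l ∈ Finset.range N, lp.single 1 l (ζ l)) atTop (𝓝 ζ) :=
    (lp.hasSum_single (by norm_num) ζ).tendsto_sum_nat
  obtain ⟨N, hN⟩ := Metric.tendsto_atTop.1 hs (ε / 2) (by positivity)
  set L := max N (max m r) with hL
  have hNL := hN (L + 1) (by omega)
  set A := cop hφ lam with hA
  set δ : ℝ := ε / (2 * (L + 2)) with hδ
  have hδpos : 0 < δ := by positivity
  obtain ⟨n, hn⟩ := exists_common (A := A) hx0 dense_Fs (fun x hx => bdd_orbit hφ hlam hx)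
    (Finset.range (L + 1))
    (fun l => Metric.ball (chi hu R l + ζ l) δ)
    (fun l => if l = r then Metric.ball ((A ^ j) x0) (1 / (m + 1))
      else Metric.ball 0 (1 / ((m + 1) * (L + 1))))
    (fun l _ => ⟨Metric.isOpen_ball, ⟨_, Metric.mem_ball_self hδpos⟩⟩)
    (fun l _ => by
      split_ifs
      · exact ⟨Metric.isOpen_ball, ⟨_, Metric.mem_ball_self (by positivity)⟩⟩
      · exact ⟨Metric.isOpen_ball, ⟨_, Metric.mem_ball_self (by positivity)⟩⟩)
  have hn' : ∀ l, ∃ x : LZ R, l ∈ Finset.range (L + 1) →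
      x ∈ Metric.ball (chi hu R l + ζ l) δ ∧ (A ^ n) x ∈ (if l = r then
        Metric.ball ((A ^ j) x0) (1 / (m + 1)) else Metric.ball 0 (1 / ((m + 1) * (L + 1)))) := by
    intro l
    by_cases hl : l ∈ Finset.range (L + 1)
    · obtain ⟨x, hx1, hx2⟩ := hn l hl
      exact ⟨x, fun _ => ⟨hx1, hx2⟩⟩
    · exact ⟨0, fun h => absurd h hl⟩
  choose x hx using hn'
  set η : Zs R := ∑ l ∈ Finset.range (L + 1), lp.single 1 l (x l - chi hu R l) with hη
  have hηl : ∀ l, η l = if l ∈ Finset.range (L + 1) then x l - chi hu R l else 0 := by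
    intro l
    rw [hη, lp.coeFn_sum, Finset.sum_apply]
    have : ∀ k ∈ Finset.range (L + 1), (lp.single 1 k (x k - chi hu R k) : Zs R) l =
        if l = k then x k - chi hu R k else 0 := by
      intro k _
      by_cases h : l = k
      · subst h
        rw [if_pos rfl, lp.single_apply_self]
      · rw [if_neg h, lp.single_apply_ne _ _ _ h]
    rw [Finset.sum_congr rfl this, Finset.sum_ite_eq]
  have hrL : r ∈ Finset.range (L + 1) := by
    rw [Finset.mem_range]; omega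
  have hgood : Good hφ lam hu x0 r j m L n η := by
    refine ⟨fun l hl => ?_, ?_, ?_⟩
    · rw [hηl, if_neg]
      rw [Finset.mem_range]; omega
    · have h1 := (hx r hrL).2
      rw [if_pos rfl, Metric.mem_ball, dist_eq_norm] at h1
      rw [hηl, if_pos hrL, add_sub_cancel]
      exact h1
    · intro l hl hlr
      have h1 := (hx l hl).2
      rw [if_neg hlr, Metric.mem_ball, dist_zero_right] at h1
      rw [hηl, if_pos hl, add_sub_cancel]
      exact h1
  refine ⟨η, ⟨L, n, by omega, by omega, η, hgood, ?_⟩, ?_⟩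
  · rw [sub_self, norm_zero, zero_mul]; positivity
  · have h1 : ‖(∑ l ∈ Finset.range (L + 1), lp.single 1 l (ζ l)) - η‖ ≤ (L + 1) * δ := by
      rw [hη, ← Finset.sum_sub_distrib]
      refine (norm_sum_le _ _).trans ?_
      have h2 : ∀ l ∈ Finset.range (L + 1),
          ‖(lp.single 1 l (ζ l) - lp.single 1 l (x l - chi hu R l) : Zs R)‖ ≤ δ := by
        intro l hl
        rw [← lp.single_sub, lp.norm_single (by norm_num)]
        have h3 := (hx l hl).1
        rw [Metric.mem_ball, dist_eq_norm, ← norm_neg] at h3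
        have e : ζ l - (x l - chi hu R l) = -(x l - (chi hu R l + ζ l)) := by abel
        rw [e]
        exact h3.le
      refine (Finset.sum_le_card_nsmul _ _ _ h2).trans ?_
      rw [Finset.card_range, nsmul_eq_mul]
      push_cast
      exact le_rfl
    have h2 : ((L : ℝ) + 1) * δ < ε / 2 := by
      rw [hδ, mul_div_assoc', div_lt_iff₀ (by positivity)]
      nlinarith
    have h3 := dist_triangle_left ζ η (∑ l ∈ Finset.range (L + 1), lp.single 1 l (ζ l))
    rw [dist_eq_norm (∑ l ∈ Finset.range (L + 1), lp.single 1 l (ζ l)) η] at h3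
    linarith

omit hφ in
/-- the map `c₀ → L₀(T)` -/
noncomputable def Phi (ζ : Zs R) : C₀(ℕ, ℂ) →L[ℂ] LZ R :=
  LinearMap.mkContinuousOfExistsBound
    { toFun := fun a => Fa hu R a + ∑' l, a l • ζ l
      map_add' := fun a b => by
        rw [Fa_add]
        have : ∑' l, (a + b) l • ζ l = ∑' l, a l • ζ l + ∑' l, b l • ζ l := by
          rw [← (Zs_summable ζ a).tsum_add (Zs_summable ζ b)]
          congr 1
          funext l
          rw [← add_smul]; rfl
        rw [this]; abel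
      map_smul' := fun c a => by
        rw [Fa_smul, RingHom.id_apply, smul_add]
        congr 1
        rw [← (Zs_summable ζ a).tsum_const_smul c]
        congr 1
        funext l
        rw [smul_smul]; rfl }
    ⟨2 + ‖ζ‖, fun a => by
      refine (norm_add_le _ _).trans ?_
      have h1 := Fa_norm_le hu (R := R) a
      have h2 := Zs_tsum_le ζ a
      change ‖Fa hu R a‖ + ‖∑' l, a l • ζ l‖ ≤ _
      nlinarith⟩

omit hφ in
lemma Phi_apply (ζ : Zs R) (a : C₀(ℕ, ℂ)) : Phi hu ζ a = Fa hu R a + ∑' l, a l • ζ l := rfl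

omit hφ in
lemma Phi_lower (hr : ∀ l k, R.par (u l) ≠ u k) {ζ : Zs R} (hζ : ‖ζ‖ < 1 / 2)
    (a : C₀(ℕ, ℂ)) : ‖a‖ ≤ 2 * ‖Phi hu ζ a‖ := by
  have h1 := le_Fa_norm hu hr a
  have h2 := Zs_tsum_le ζ a
  have h3 : Fa hu R a = Phi hu ζ a - ∑' l, a l • ζ l := by rw [Phi_apply]; abel
  have h4 := norm_sub_le (Phi hu ζ a) (∑' l, a l • ζ l)
  rw [← h3] at h4
  nlinarith [norm_nonneg a]

/-- elements of the intersection give hypercyclic vectors -/
lemma Phi_hyp (hlam : ‖lam‖ ≤ 1) {x0 : LZ R}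
    (hx0 : Dense (range fun n : ℕ => (cop hφ lam ^ n) x0)) {ζ : Zs R}
    (hζ : ∀ r j m : ℕ, ζ ∈ Op hφ lam hu x0 r j m) {a : C₀(ℕ, ℂ)} (ha : a ≠ 0) :
    Dense (range fun n : ℕ => (cop hφ lam ^ n) (Phi hu ζ a)) := by
  obtain ⟨r, hr⟩ : ∃ r, a r ≠ 0 := by
    by_contra hcon
    push Not at hcon
    exact ha (DFunLike.ext _ _ hcon)
  set A := cop hφ lam with hA
  intro g
  rw [Metric.mem_closure_iff]
  intro ε hε
  -- `y_j`
  obtain ⟨_, ⟨j, rfl⟩, hj⟩ := Metric.mem_closure_iff.1 (hx0 ((a r)⁻¹ • g)) (ε / (2 * (‖a r‖ + 1)))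
    (by positivity)
  -- tail
  have htail : ∃ K : ℕ, ∀ k, K < k → ‖a k‖ ≤ ε / 16 := by
    have h1 := c0_finite a (ε / 16) (by positivity)
    obtain ⟨K, hK⟩ := h1.bddAbove
    refine ⟨K, fun k hk => ?_⟩
    by_contra hcon
    have := hK (show k ∈ {l | ε / 16 ≤ ‖a l‖} from (not_le.1 hcon).le)
    omega
  obtain ⟨K, hK⟩ := htail
  obtain ⟨m0, hm0⟩ := exists_nat_one_div_lt (show 0 < ε / (8 * (3 * ‖a‖ + 1)) by positivity)
  set m := max K m0 with hm
  have hm1 : 1 / ((m : ℝ) + 1) ≤ ε / (8 * (3 * ‖a‖ + 1)) := by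
    refine le_trans ?_ hm0.le
    apply one_div_le_one_div_of_le (by positivity)
    have : (m0 : ℝ) ≤ m := by exact_mod_cast le_max_right K m0
    linarith
  obtain ⟨L, n, hmL, hrL, η, ⟨hη0, hη1, hη2⟩, hη3⟩ := hζ r j m
  refine ⟨_, ⟨n, rfl⟩, ?_⟩
  simp only
  -- decomposition
  have hrL' : r ∈ Finset.range (L + 1) := by rw [Finset.mem_range]; omega
  have hsumη : ∑' l, a l • η l = ∑ l ∈ Finset.range (L + 1), a l • η l := by
    apply tsum_eq_sum
    intro l hl
    rw [Finset.mem_range, not_lt] at hl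
    rw [hη0 l (by omega), smul_zero]
  have hdec : Phi hu ζ a = (Fa hu R a - ∑ l ∈ Finset.range (L + 1), a l • chi hu R l) +
      ∑ l ∈ Finset.range (L + 1), a l • (chi hu R l + η l) + ∑' l, a l • (ζ - η) l := by
    have h1 : ∑' l, a l • (ζ - η) l = ∑' l, a l • ζ l - ∑' l, a l • η l := by
      rw [← (Zs_summable ζ a).tsum_sub (Zs_summable η a)]
      congr 1
      funext l
      rw [← smul_sub]; rfl
    rw [Phi_apply, h1, hsumη]
    simp only [smul_add, Finset.sum_add_distrib]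
    abel
  have h1 : ‖(A ^ n) (Fa hu R a - ∑ l ∈ Finset.range (L + 1), a l • chi hu R l)‖ ≤
      2 * (ε / 16) := by
    apply orbit_le hφ hlam
    apply tail_le hu a (by positivity)
    intro k hk
    exact hK k (by omega)
  have h3 : ‖(A ^ n) (∑' l, a l • (ζ - η) l)‖ ≤ ‖a‖ * (1 / (m + 1)) := by
    refine ((A ^ n).le_opNorm _).trans ?_
    have h4 := Zs_tsum_le (ζ - η) a
    have h5 : ‖A ^ n‖ * ‖∑' l, a l • (ζ - η) l‖ ≤ ‖A ^ n‖ * (‖a‖ * ‖ζ - η‖) :=
      mul_le_mul_of_nonneg_left h4 (norm_nonneg _)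
    have h6 : ‖A ^ n‖ * (‖a‖ * ‖ζ - η‖) ≤ ‖a‖ * (‖ζ - η‖ * (‖A ^ n‖ + 1)) := by
      have := mul_nonneg (norm_nonneg a) (norm_nonneg (ζ - η))
      nlinarith
    have h7 := mul_le_mul_of_nonneg_left hη3.le (norm_nonneg a)
    linarith
  have h2 : ‖(A ^ n) (∑ l ∈ Finset.range (L + 1), a l • (chi hu R l + η l)) - g‖ ≤
      ‖a‖ * (1 / (m + 1)) + ‖a‖ * (1 / (m + 1)) + ε / 2 := by
    rw [map_sum, ← Finset.add_sum_erase _ _ hrL']
    have e1 : (A ^ n) (a r • (chi hu R r + η r)) + ∑ l ∈ (Finset.range (L + 1)).erase r,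
        (A ^ n) (a l • (chi hu R l + η l)) - g =
        a r • ((A ^ n) (chi hu R r + η r) - (A ^ j) x0) + (∑ l ∈ (Finset.range (L + 1)).erase r,
        a l • (A ^ n) (chi hu R l + η l)) + (a r • (A ^ j) x0 - g) := by
      simp only [map_smul, smul_sub]
      abel
    rw [e1]
    have f1 : ‖a r • ((A ^ n) (chi hu R r + η r) - (A ^ j) x0)‖ ≤ ‖a‖ * (1 / (m + 1)) := by
      rw [norm_smul]
      exact mul_le_mul (c0_le a r) hη1.le (norm_nonneg _) (norm_nonneg _)
    have f2 : ‖∑ l ∈ (Finset.range (L + 1)).erase r, a l • (A ^ n) (chi hu R l + η l)‖ ≤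
        ‖a‖ * (1 / (m + 1)) := by
      refine (norm_sum_le _ _).trans ?_
      have f3 : ∀ l ∈ (Finset.range (L + 1)).erase r, ‖a l • (A ^ n) (chi hu R l + η l)‖ ≤
          ‖a‖ * (1 / ((m + 1) * (L + 1))) := by
        intro l hl
        rw [norm_smul]
        exact mul_le_mul (c0_le a l) (hη2 l (Finset.mem_of_mem_erase hl)
          (Finset.ne_of_mem_erase hl)).le (norm_nonneg _) (norm_nonneg _)
      refine (Finset.sum_le_card_nsmul _ _ _ f3).trans ?_
      rw [nsmul_eq_mul]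
      have f4 : (((Finset.range (L + 1)).erase r).card : ℝ) ≤ L + 1 := by
        have := Finset.card_erase_le (s := Finset.range (L + 1)) (a := r)
        rw [Finset.card_range] at this
        exact_mod_cast this
      have f5 : 0 ≤ ‖a‖ * (1 / (((m : ℝ) + 1) * (L + 1))) := by positivity
      refine (mul_le_mul_of_nonneg_right f4 f5).trans (le_of_eq ?_)
      field_simp
    have f6 : ‖a r • (A ^ j) x0 - g‖ ≤ ε / 2 := by
      have e2 : a r • (A ^ j) x0 - g = a r • ((A ^ j) x0 - (a r)⁻¹ • g) := by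
        rw [smul_sub, smul_smul, mul_inv_cancel₀ hr, one_smul]
      rw [e2, norm_smul]
      rw [dist_comm, dist_eq_norm] at hj
      have f7 := mul_le_mul_of_nonneg_left hj.le (norm_nonneg (a r))
      refine f7.trans ?_
      rw [mul_div_assoc', div_le_iff₀ (by positivity)]
      nlinarith [norm_nonneg (a r)]
    refine (norm_add_le _ _).trans (add_le_add ((norm_add_le _ _).trans (add_le_add f1 f2)) f6)
  have h8 : ‖a‖ * (1 / ((m : ℝ) + 1)) ≤ ε / 24 := by
    refine (mul_le_mul_of_nonneg_left hm1 (norm_nonneg a)).trans ?_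
    rw [mul_div_assoc', div_le_div_iff₀ (by positivity) (by positivity)]
    nlinarith [norm_nonneg a]
  rw [dist_comm, dist_eq_norm, hdec, map_add, map_add]
  have e3 : (A ^ n) (Fa hu R a - ∑ l ∈ Finset.range (L + 1), a l • chi hu R l) +
      (A ^ n) (∑ l ∈ Finset.range (L + 1), a l • (chi hu R l + η l)) +
      (A ^ n) (∑' l, a l • (ζ - η) l) - g =
      (A ^ n) (Fa hu R a - ∑ l ∈ Finset.range (L + 1), a l • chi hu R l) +
      ((A ^ n) (∑ l ∈ Finset.range (L + 1), a l • (chi hu R l + η l)) - g) +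
      (A ^ n) (∑' l, a l • (ζ - η) l) := by abel
  rw [e3]
  refine ((norm_add_le _ _).trans (add_le_add ((norm_add_le _ _).trans
    (add_le_add h1 h2)) h3)).trans_lt ?_
  linarith

omit hφ hu in
/-- unit vectors of `c₀` -/
noncomputable def e0 (l : ℕ) : C₀(ℕ, ℂ) where
  toFun := Pi.single l 1
  continuous_toFun := continuous_of_discreteTopology
  zero_at_infty' := by
    rw [cocompact_eq_cofinite]
    apply tendsto_const_nhds.congr'
    have : ∀ᶠ k in cofinite, k ≠ l := (Set.finite_singleton l).compl_mem_cofinite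
    filter_upwards [this] with k hk
    rw [Pi.single_eq_of_ne hk]

omit hφ hu in
lemma e0_indep : LinearIndependent ℂ e0 := by
  rw [linearIndependent_iff']
  intro s g hg i hi
  have h1 := congrArg (fun a : C₀(ℕ, ℂ) => a i) hg
  have h2 : ∀ (t : Finset ℕ), (∑ l ∈ t, g l • e0 l : C₀(ℕ, ℂ)) i = ∑ l ∈ t, g l * (Pi.single l (1 : ℂ) : ℕ → ℂ) i := by
    intro t
    induction t using Finset.induction_on with
    | empty => simp
    | insert a t ha ih =>
      rw [Finset.sum_insert ha, Finset.sum_insert ha, ← ih]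
      rfl
  simp only [h2] at h1
  rw [Finset.sum_eq_single i] at h1
  · simpa using h1
  · intro l _ hl
    rw [Pi.single_eq_of_ne (Ne.symm hl), mul_zero]
  · intro h; exact absurd hi h

omit hφ hu in
/-- the function of an element, as a linear map -/
def fnL : LZ R →ₗ[ℂ] (T → ℂ) where
  toFun := LZ.fn
  map_add' _ _ := rfl
  map_smul' _ _ := rfl

omit hu in
theorem main_subspace (hlam : ‖lam‖ ≤ 1) (h : ∃ f, IsHypVec R φ lam f) :
    ∃ M : Submodule ℂ (T → ℂ), IsHypSubspace R φ lam M := by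
  obtain ⟨f0, hf0⟩ := h
  set x0 : LZ R := LZ.mk f0 hf0.1 with hx0def
  have hx0 : Dense (range fun n : ℕ => (cop hφ lam ^ n) x0) := (hypVec_iff hφ lam x0).1 hf0
  obtain ⟨u, hu, -, hr⟩ := exists_seq R
  -- Baire
  have hG : Dense (⋂ p : ℕ × ℕ × ℕ, Op hφ lam hu x0 p.1 p.2.1 p.2.2) :=
    dense_iInter_of_isOpen (fun p => Op_open hφ lam hu x0 p.1 p.2.1 p.2.2)
      (fun p => Op_dense hφ lam hu hlam hx0 p.1 p.2.1 p.2.2)
  obtain ⟨ζ, hζ1, hζ2⟩ := hG.inter_open_nonempty (Metric.ball 0 (1 / 2)) Metric.isOpen_ball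
    ⟨0, Metric.mem_ball_self (by norm_num)⟩
  rw [Metric.mem_ball, dist_zero_right] at hζ1
  have hζ3 : ∀ r j m : ℕ, ζ ∈ Op hφ lam hu x0 r j m := fun r j m => mem_iInter.1 hζ2 (r, j, m)
  have hlow := Phi_lower hu hr hζ1
  have hinj : Function.Injective (Phi hu ζ) := by
    rw [injective_iff_map_eq_zero]
    intro a ha
    have := hlow a
    rw [ha, norm_zero, mul_zero] at this
    exact norm_le_zero_iff.1 this
  have hclosed : IsClosed (range (Phi hu ζ)) := by
    have : AntilipschitzWith 2 (Phi hu ζ) :=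
      (Phi hu ζ).antilipschitz_of_bound (K := 2) (fun a => by simpa using hlow a)
    exact this.isClosed_range (Phi hu ζ).uniformContinuous
  let Ψ : C₀(ℕ, ℂ) →ₗ[ℂ] (T → ℂ) := fnL.comp ((Phi hu ζ : C₀(ℕ, ℂ) →L[ℂ] LZ R) : C₀(ℕ, ℂ) →ₗ[ℂ] LZ R)
  have hΨ : ∀ a, Ψ a = (Phi hu ζ a).fn := fun a => rfl
  have hΨinj : Function.Injective Ψ := by
    intro a b hab
    rw [hΨ, hΨ] at hab
    exact hinj (fn_ext hab)
  refine ⟨LinearMap.range Ψ, ?_, ?_, ?_, ?_⟩
  · rintro _ ⟨a, rfl⟩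
    exact fn_little _
  · intro f hf hcl
    have : LZ.mk f hf ∈ range (Phi hu ζ) := by
      rw [← hclosed.closure_eq, Metric.mem_closure_iff]
      intro ε hε
      obtain ⟨_, ⟨a, rfl⟩, ha⟩ := hcl ε hε
      exact ⟨_, ⟨a, rfl⟩, by rw [dist_eq_norm]; exact ha⟩
    obtain ⟨a, ha⟩ := this
    exact ⟨a, by rw [hΨ, ha]; rfl⟩
  · intro hfd
    let Ψ' : C₀(ℕ, ℂ) →ₗ[ℂ] LinearMap.range Ψ := Ψ.rangeRestrict
    have hΨ' : Function.Injective Ψ' := by
      intro a b hab
      exact hΨinj (show (Ψ' a : T → ℂ) = Ψ' b from congrArg Subtype.val hab)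
    have : FiniteDimensional ℂ C₀(ℕ, ℂ) := FiniteDimensional.of_injective Ψ' hΨ'
    have := (e0_indep).finite
    exact not_finite ℕ
  · rintro _ ⟨a, rfl⟩ hne
    have ha : a ≠ 0 := by
      rintro rfl
      exact hne (map_zero _)
    rw [hΨ, hypVec_iff hφ lam]
    exact Phi_hyp hφ lam hu hlam hx0 hζ3 ha

end main

end Pool.Agent.R884.Lip
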